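import Mathlib

/-!
# Integral Koszul sums

If `Σ_S (-1)^|S| C(t - β_S, N)` is an integer for all integers `t`, then so is
`Σ_S (-1)^|S| g(β_S) C(t - β_S, k)` for all polynomials `g` with integral coefficients and all `k`
with `k + deg g ≤ N`.
-/

set_option autoImplicit false

namespace Pool.Agent.K6.H50.CI

open Finset Polynomial

/-- The binomial coefficient `x (x - 1) ... (x - k + 1) / k!`. -/
noncomputable def cho (k : ℕ) (x : ℂ) : ℂ := (∏ i ∈ range k, (x - i)) / k.factorial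

theorem cho_succ (k : ℕ) (x : ℂ) : (k + 1) * cho (k + 1) x = (x - k) * cho k x := by
  unfold cho
  rw [Finset.prod_range_succ, Nat.factorial_succ]
  have h1 : (k.factorial : ℂ) ≠ 0 := by exact_mod_cast k.factorial_ne_zero
  have h2 : ((k : ℂ) + 1) ≠ 0 := by exact_mod_cast k.succ_ne_zero
  push_cast
  field_simp

theorem cho_pascal (k : ℕ) (x : ℂ) : cho (k + 1) (x + 1) = cho (k + 1) x + cho k x := by
  have h1 : (k.factorial : ℂ) ≠ 0 := by exact_mod_cast k.factorial_ne_zero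
  have h2 : ((k : ℂ) + 1) ≠ 0 := by exact_mod_cast k.succ_ne_zero
  have h3 : ∏ i ∈ range (k + 1), (x + 1 - (i : ℂ)) = (x + 1) * ∏ i ∈ range k, (x - i) := by
    rw [Finset.prod_range_succ']
    rw [mul_comm]
    congr 1
    · simp
    · refine Finset.prod_congr rfl fun i _ => ?_
      push_cast
      ring
  have h4 : ∏ i ∈ range (k + 1), (x - (i : ℂ)) = (x - k) * ∏ i ∈ range k, (x - i) := by
    rw [Finset.prod_range_succ, mul_comm]
  unfold cho
  rw [h3, h4, Nat.factorial_succ]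
  push_cast
  field_simp
  ring

/-- `z` is an integer. -/
def IsZ (z : ℂ) : Prop := ∃ n : ℤ, z = n

theorem IsZ.add {a b : ℂ} (ha : IsZ a) (hb : IsZ b) : IsZ (a + b) := by
  obtain ⟨m, hm⟩ := ha
  obtain ⟨n, hn⟩ := hb
  exact ⟨m + n, by rw [hm, hn]; push_cast; rfl⟩

theorem IsZ.mul {a b : ℂ} (ha : IsZ a) (hb : IsZ b) : IsZ (a * b) := by
  obtain ⟨m, hm⟩ := ha
  obtain ⟨n, hn⟩ := hb
  exact ⟨m * n, by rw [hm, hn]; push_cast; rfl⟩

theorem IsZ.sub {a b : ℂ} (ha : IsZ a) (hb : IsZ b) : IsZ (a - b) := by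
  obtain ⟨m, hm⟩ := ha
  obtain ⟨n, hn⟩ := hb
  exact ⟨m - n, by rw [hm, hn]; push_cast; rfl⟩

theorem isZ_int (n : ℤ) : IsZ n := ⟨n, rfl⟩

theorem isZ_sum {ι : Type*} (s : Finset ι) (f : ι → ℂ) (h : ∀ i ∈ s, IsZ (f i)) :
    IsZ (∑ i ∈ s, f i) := by
  classical
  induction s using Finset.induction_on with
  | empty => exact ⟨0, by simp⟩
  | insert a s ha ih =>
    rw [Finset.sum_insert ha]
    exact (h a (Finset.mem_insert_self _ _)).add
      (ih fun i hi => h i (Finset.mem_insert_of_mem hi))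

/-- `Σ_S (-1)^|S| g(β_S) C(t - β_S, k)`. -/
noncomputable def J {r : ℕ} (β : Fin r → ℂ) (g : ℂ → ℂ) (t : ℂ) (k : ℕ) : ℂ :=
  ∑ S : Finset (Fin r), (-1) ^ S.card * g (∑ j ∈ S, β j) * cho k (t - ∑ j ∈ S, β j)

theorem J_one {r : ℕ} (β : Fin r → ℂ) {N : ℕ} (h : ∀ t : ℤ, IsZ (J β (fun _ => 1) t N)) :
    ∀ d ≤ N, ∀ t : ℤ, IsZ (J β (fun _ => 1) t (N - d)) := by
  intro d
  induction d with
  | zero => intro _ t; simpa using h t
  | succ d ih =>
    intro hd t
    have ih' := ih (by omega)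
    have h1 : J β (fun _ => 1) t (N - (d + 1)) =
        J β (fun _ => 1) ((t + 1 : ℤ) : ℂ) (N - d) - J β (fun _ => 1) t (N - d) := by
      obtain ⟨k, hk⟩ : ∃ k, N - d = k + 1 := ⟨N - d - 1, by omega⟩
      have hk' : N - (d + 1) = k := by omega
      rw [hk, hk']
      unfold J
      rw [← Finset.sum_sub_distrib]
      refine Finset.sum_congr rfl fun S _ => ?_
      have h2 := cho_pascal k (t - ∑ j ∈ S, β j)
      rw [show (((t + 1 : ℤ) : ℂ) - ∑ j ∈ S, β j) = (t - ∑ j ∈ S, β j) + 1 by push_cast; ring, h2]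
      ring
    rw [h1]
    exact (ih' (t + 1)).sub (ih' t)

theorem J_pow {r : ℕ} (β : Fin r → ℂ) {N : ℕ} (h : ∀ t : ℤ, IsZ (J β (fun _ => 1) t N)) :
    ∀ d k : ℕ, k + d ≤ N → ∀ t : ℤ, IsZ (J β (fun x => x ^ d) t k) := by
  intro d
  induction d with
  | zero =>
    intro k hk t
    have := J_one β h (N - k) (by omega) t
    rw [show N - (N - k) = k by omega] at this
    simpa using this
  | succ d ih =>
    intro k hk t
    have h1 : J β (fun x => x ^ (d + 1)) t k =
        (((t - k : ℤ) : ℂ)) * J β (fun x => x ^ d) t k -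
          (((k + 1 : ℤ) : ℂ)) * J β (fun x => x ^ d) t (k + 1) := by
      unfold J
      rw [Finset.mul_sum, Finset.mul_sum, ← Finset.sum_sub_distrib]
      refine Finset.sum_congr rfl fun S _ => ?_
      have h2 := cho_succ k (t - ∑ j ∈ S, β j)
      push_cast
      linear_combination ((-1) ^ S.card * (∑ j ∈ S, β j) ^ d) * h2
    rw [h1]
    exact ((isZ_int _).mul (ih k (by omega) t)).sub ((isZ_int _).mul (ih (k + 1) (by omega) t))

theorem J_poly {r : ℕ} (β : Fin r → ℂ) {N : ℕ} (h : ∀ t : ℤ, IsZ (J β (fun _ => 1) t N))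
    (g : ℤ[X]) (k : ℕ) (hk : k + g.natDegree ≤ N) (t : ℤ) :
    IsZ (J β (fun x => aeval x g) t k) := by
  have h1 : J β (fun x => aeval x g) t k =
      ∑ d ∈ range (g.natDegree + 1), ((g.coeff d : ℤ) : ℂ) * J β (fun x => x ^ d) t k := by
    unfold J
    simp only [Finset.mul_sum]
    rw [Finset.sum_comm]
    refine Finset.sum_congr rfl fun S _ => ?_
    rw [aeval_eq_sum_range, Finset.mul_sum, Finset.sum_mul]
    refine Finset.sum_congr rfl fun d _ => ?_
    rw [zsmul_eq_mul]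
    ring
  rw [h1]
  refine isZ_sum _ _ fun d hd => (isZ_int _).mul (J_pow β h d k ?_ t)
  have := Finset.mem_range.1 hd
  omega

end Pool.Agent.K6.H50.CI
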