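import Mathlib

/-!
# Conjugates of sums of roots
-/

set_option autoImplicit false

namespace Pool.Agent.K6.H50.GA

open Finset Polynomial

variable {r : ℕ} (β : Fin r → ℂ) (P : ℤ[X])

theorem isIntegral_root (hm : P.Monic) (h0 : ∀ j, aeval (β j) P = 0) (j : Fin r) :
    IsIntegral ℤ (β j) := ⟨P, hm, h0 j⟩

theorem isIntegral_sum (hm : P.Monic) (h0 : ∀ j, aeval (β j) P = 0) (S : Finset (Fin r)) :
    IsIntegral ℤ (∑ j ∈ S, β j) :=
  IsIntegral.sum _ fun j _ => isIntegral_root β P hm h0 j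

theorem conj_sum (hm : P.Monic) (h0 : ∀ j, aeval (β j) P = 0)
    (h1 : ∀ x : ℂ, aeval x P = 0 → ∃ j, β j = x) (S : Finset (Fin r)) (μ : ℂ)
    (hμ : aeval μ (minpoly ℤ (∑ j ∈ S, β j)) = 0) :
    ∃ τ : Fin r → Fin r, μ = ∑ j ∈ S, β (τ j) := by
  classical
  have halg : ∀ j, β j ∈ algebraicClosure ℚ ℂ := fun j => by
    rw [mem_algebraicClosure_iff]
    exact ((isIntegral_root β P hm h0 j).tower_top (A := ℚ)).isAlgebraic
  set b : Fin r → algebraicClosure ℚ ℂ := fun j => ⟨β j, halg j⟩ with hb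
  set x : algebraicClosure ℚ ℂ := ∑ j ∈ S, b j with hx
  have hx' : (x : ℂ) = ∑ j ∈ S, β j := by
    rw [hx]
    simp [hb]
  have hint := isIntegral_sum β P hm h0 S
  have hmin : minpoly ℚ x = (minpoly ℤ (∑ j ∈ S, β j)).map (algebraMap ℤ ℚ) := by
    rw [← minpoly.isIntegrallyClosed_eq_field_fractions' ℚ hint, ← hx']
    exact (minpoly.algebraMap_eq (algebraMap (algebraicClosure ℚ ℂ) ℂ).injective x).symm
  have hroot : μ ∈ (minpoly ℚ x).rootSet ℂ := by
    rw [Polynomial.mem_rootSet]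
    refine ⟨?_, ?_⟩
    · rw [hmin]
      exact ((minpoly.monic hint).map _).ne_zero
    · rw [hmin, aeval_map_algebraMap]
      exact hμ
  haveI : Algebra.IsAlgebraic ℚ (algebraicClosure ℚ ℂ) := algebraicClosure.isAlgebraic ℚ ℂ
  rw [← Algebra.IsAlgebraic.range_eval_eq_rootSet_minpoly ℂ x] at hroot
  obtain ⟨ψ, hψ⟩ := hroot
  have h2 : ∀ j, ∃ i, β i = ψ (b j) := by
    intro j
    apply h1
    have h3 : aeval (b j) P = 0 := by
      have h4 : algebraMap (algebraicClosure ℚ ℂ) ℂ (aeval (b j) P) = 0 := by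
        rw [← aeval_algebraMap_apply]
        exact h0 j
      exact (map_eq_zero_iff _ (algebraMap (algebraicClosure ℚ ℂ) ℂ).injective).1 h4
    have h5 : aeval (ψ (b j)) P = ψ (aeval (b j) P) := by
      have := aeval_algHom_apply (ψ.restrictScalars ℤ) (b j) P
      simpa using this
    rw [h5, h3, map_zero]
  choose τ hτ using h2
  refine ⟨τ, ?_⟩
  have h6 : ψ x = μ := hψ
  rw [← h6, hx, map_sum]
  exact Finset.sum_congr rfl fun j _ => (hτ j).symm

theorem card_roots_minpoly (hm : P.Monic) (h0 : ∀ j, aeval (β j) P = 0) (S : Finset (Fin r)) :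
    Multiset.card ((minpoly ℤ (∑ j ∈ S, β j)).map (Int.castRingHom ℂ)).roots =
      (minpoly ℤ (∑ j ∈ S, β j)).natDegree ∧
    ((minpoly ℤ (∑ j ∈ S, β j)).map (Int.castRingHom ℂ)).roots.Nodup := by
  have hint := isIntegral_sum β P hm h0 S
  have h1 : ((minpoly ℤ (∑ j ∈ S, β j)).map (Int.castRingHom ℂ)) =
      (minpoly ℚ (∑ j ∈ S, β j)).map (algebraMap ℚ ℂ) := by
    rw [minpoly.isIntegrallyClosed_eq_field_fractions' ℚ hint, Polynomial.map_map]
    congr 1
  refine ⟨?_, ?_⟩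
  · rw [IsAlgClosed.card_roots_eq_natDegree]
    exact (minpoly.monic hint).natDegree_map _
  · rw [h1]
    have h2 : (minpoly ℚ (∑ j ∈ S, β j)).Separable :=
      (minpoly.irreducible (hint.tower_top (A := ℚ))).separable
    exact Polynomial.nodup_roots (h2.map)

theorem natDegree_minpoly_le (hm : P.Monic) (h0 : ∀ j, aeval (β j) P = 0)
    (h1 : ∀ x : ℂ, aeval x P = 0 → ∃ j, β j = x) (S : Finset (Fin r)) :
    (minpoly ℤ (∑ j ∈ S, β j)).natDegree ≤ r ^ r := by
  classical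
  obtain ⟨h2, h3⟩ := card_roots_minpoly β P hm h0 S
  rw [← h2]
  have h4 : ((minpoly ℤ (∑ j ∈ S, β j)).map (Int.castRingHom ℂ)).roots.toFinset ⊆
      (Finset.univ : Finset (Fin r → Fin r)).image fun τ => ∑ j ∈ S, β (τ j) := by
    intro μ hμ
    rw [Multiset.mem_toFinset, mem_roots'] at hμ
    obtain ⟨τ, hτ⟩ := conj_sum β P hm h0 h1 S μ (by
      have := hμ.2
      rw [IsRoot.def, eval_map] at this
      rw [aeval_def]
      exact this)
    exact Finset.mem_image.2 ⟨τ, Finset.mem_univ _, hτ.symm⟩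
  have h5 := Finset.card_le_card h4
  rw [Multiset.toFinset_card_of_nodup h3] at h5
  refine h5.trans (Finset.card_image_le.trans ?_)
  simp

theorem norm_prod_le (m : Multiset ℂ) (x : ℂ) (C : ℝ) (hC : 0 ≤ C) (h : ∀ μ ∈ m, ‖x - μ‖ ≤ C) :
    ‖(m.map fun μ => x - μ).prod‖ ≤ C ^ Multiset.card m := by
  induction m using Multiset.induction_on with
  | empty => simp
  | cons a m ih =>
    rw [Multiset.map_cons, Multiset.prod_cons, norm_mul, Multiset.card_cons, pow_succ']
    exact mul_le_mul (h a (Multiset.mem_cons_self a m))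
      (ih fun μ hμ => h μ (Multiset.mem_cons_of_mem hμ)) (norm_nonneg _) hC

/-- The value of the minimal polynomial of `β_S` at a point. -/
theorem norm_minpoly_le (hm : P.Monic) (h0 : ∀ j, aeval (β j) P = 0)
    (h1 : ∀ x : ℂ, aeval x P = 0 → ∃ j, β j = x) (S : Finset (Fin r)) (B : ℝ)
    (hB : ∀ j, ‖β j‖ ≤ B) (hB1 : 1 ≤ B) (x : ℂ) (hx : ‖x‖ ≤ B) :
    ‖aeval x (minpoly ℤ (∑ j ∈ S, β j))‖ ≤ ((r + 1) * B) ^ (r ^ r) := by
  classical
  obtain ⟨h2, h3⟩ := card_roots_minpoly β P hm h0 S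
  have hint := isIntegral_sum β P hm h0 S
  set p := (minpoly ℤ (∑ j ∈ S, β j)).map (Int.castRingHom ℂ) with hp
  have hmon : p.Monic := (minpoly.monic hint).map _
  have h4 : aeval x (minpoly ℤ (∑ j ∈ S, β j)) = p.eval x := by
    rw [hp, eval_map, aeval_def]
    rfl
  have h5 : p.eval x = (p.roots.map fun μ => x - μ).prod := by
    have h6 := IsAlgClosed.splits p
    have h7 := h6.eq_prod_roots_of_monic hmon
    conv_lhs => rw [h7]
    rw [eval_multiset_prod, Multiset.map_map]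
    congr 1
    refine Multiset.map_congr rfl fun μ _ => ?_
    simp
  rw [h4, h5]
  have hbase : 1 ≤ (r + 1) * B := by
    have : (0 : ℝ) ≤ r := Nat.cast_nonneg r
    nlinarith
  have h8 : ‖(p.roots.map fun μ => x - μ).prod‖ ≤ ((r + 1) * B) ^ Multiset.card p.roots := by
    refine norm_prod_le _ x _ (by linarith) fun μ hμ => ?_
    rw [mem_roots'] at hμ
    obtain ⟨τ, hτ⟩ := conj_sum β P hm h0 h1 S μ (by
      have := hμ.2
      rw [IsRoot.def, hp, eval_map] at this
      rw [aeval_def]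
      exact this)
    have h10 : ‖μ‖ ≤ r * B := by
      rw [hτ]
      refine (norm_sum_le _ _).trans ?_
      refine (Finset.sum_le_sum fun j _ => hB (τ j)).trans ?_
      rw [Finset.sum_const, nsmul_eq_mul]
      have h11 : (S.card : ℝ) ≤ r := by
        have := Finset.card_le_univ S
        rw [Fintype.card_fin] at this
        exact_mod_cast this
      nlinarith
    calc ‖x - μ‖ ≤ ‖x‖ + ‖μ‖ := norm_sub_le _ _
      _ ≤ B + r * B := add_le_add hx h10
      _ = (r + 1) * B := by ring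
  refine h8.trans ?_
  rw [h2]
  exact pow_le_pow_right₀ hbase (natDegree_minpoly_le β P hm h0 h1 S)

end Pool.Agent.K6.H50.GA
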