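import Pool.Agent.K6.H50.CI
import Pool.Agent.K6.H50.GA

/-!
# Integral Koszul sums and small binomial coefficients imply integral Chern roots
-/

set_option autoImplicit false

namespace Pool.Agent.K6.H50.CO

open Finset Polynomial Pool.Agent.K6.H50.CI Pool.Agent.K6.H50.GA

theorem isZ_small {z : ℂ} (h : IsZ z) (h1 : ‖z‖ < 1) : z = 0 := by
  obtain ⟨n, hn⟩ := h
  rw [hn] at h1 ⊢
  rw [Complex.norm_intCast] at h1
  have h2 : |n| < 1 := by exact_mod_cast h1
  rw [Int.abs_lt_one_iff.1 h2]
  simp

theorem cho_eq_zero {k : ℕ} {x : ℂ} (h : cho k x = 0) : ∃ i : ℕ, x = i := by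
  unfold cho at h
  rw [div_eq_zero_iff] at h
  rcases h with h | h
  · rw [Finset.prod_eq_zero_iff] at h
    obtain ⟨i, _, hi⟩ := h
    exact ⟨i, by linear_combination hi⟩
  · exact absurd h (by exact_mod_cast k.factorial_ne_zero)

theorem core {r N k : ℕ} (β : Fin r → ℂ) (P : ℤ[X]) (hm : P.Monic)
    (h0 : ∀ j, aeval (β j) P = 0) (h1 : ∀ x : ℂ, aeval x P = 0 → ∃ j, β j = x)
    (hre : ∀ j, 0 < (β j).re) (hJ : ∀ t : ℤ, IsZ (J β (fun _ => 1) t N))
    (hk : k + (r ^ r + 2 ^ r * r ^ r) ≤ N) (t : ℤ) (B E : ℝ) (hB1 : 1 ≤ B)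
    (hB : ∀ j, ‖β j‖ ≤ B) (hE : ∀ j, ‖cho k (t - β j)‖ ≤ E)
    (hsmall : 2 ^ r * (B ^ (r ^ r) * (((r + 1) * B) ^ (r ^ r)) ^ (2 ^ r) * E) < 1) :
    ∀ j, ∃ n : ℤ, β j = n := by
  classical
  by_contra hcon
  push Not at hcon
  -- a root which is not an integer, with minimal real part
  obtain ⟨j₀, hj₀, hmin⟩ : ∃ j₀, (∀ n : ℤ, β j₀ ≠ n) ∧
      ∀ j, (∀ n : ℤ, β j ≠ n) → (β j₀).re ≤ (β j).re := by
    have hne : (univ.filter fun j => ∀ n : ℤ, β j ≠ n).Nonempty := by
      obtain ⟨j, hj⟩ := hcon
      exact ⟨j, Finset.mem_filter.2 ⟨Finset.mem_univ _, hj⟩⟩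
    obtain ⟨j₀, h2, h3⟩ := Finset.exists_min_image _ (fun j => (β j).re) hne
    exact ⟨j₀, (Finset.mem_filter.1 h2).2, fun j hj =>
      h3 j (Finset.mem_filter.2 ⟨Finset.mem_univ _, hj⟩)⟩
  set lam := β j₀ with hlam
  have hE0 : 0 ≤ E := (norm_nonneg _).trans (hE j₀)
  have hsingle : ∑ j ∈ ({j₀} : Finset (Fin r)), β j = lam := by simp [hlam]
  set s : Finset (Fin r) → ℂ := fun S => ∑ j ∈ S, β j with hs
  set q := minpoly ℤ lam with hq
  have hlamint : IsIntegral ℤ lam := isIntegral_root β P hm h0 j₀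
  have hq' : q = minpoly ℤ (s {j₀}) := by rw [hq, hs]; simp only; rw [hsingle]
  obtain ⟨hcard, hnodup⟩ := card_roots_minpoly β P hm h0 {j₀}
  have hdeg := natDegree_minpoly_le β P hm h0 h1 {j₀}
  rw [show minpoly ℤ (∑ j ∈ ({j₀} : Finset (Fin r)), β j) = q from hq'.symm] at hcard hnodup hdeg
  set n := q.natDegree with hn
  set Q := (q.map (Int.castRingHom ℂ)).roots.toFinset with hQ
  have hQcard : Q.card = n := by rw [hQ, Multiset.toFinset_card_of_nodup hnodup, hcard]
  have hqne : q.map (Int.castRingHom ℂ) ≠ 0 := ((minpoly.monic hlamint).map _).ne_zero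
  have hmemQ : ∀ x, x ∈ Q ↔ aeval x q = 0 := by
    intro x
    rw [hQ, Multiset.mem_toFinset, mem_roots hqne, IsRoot.def, eval_map, aeval_def]
    rfl
  have hlamQ : lam ∈ Q := (hmemQ lam).2 (minpoly.aeval ℤ lam)
  -- the elements of `Q` are roots of `P`
  have hQroot : ∀ x ∈ Q, ∃ j, β j = x := by
    intro x hx
    apply h1
    have h2 : q ∣ P := minpoly.isIntegrallyClosed_dvd hlamint (h0 j₀)
    obtain ⟨w, hw⟩ := h2
    rw [hw, map_mul, (hmemQ x).1 hx, zero_mul]
  -- the polynomial which kills the other sums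
  set F : Finset ℤ[X] := (univ.image fun S => minpoly ℤ (s S)).erase q with hF
  set G : ℤ[X] := ∏ p ∈ F, p with hG
  have hFcard : F.card ≤ 2 ^ r := by
    refine (Finset.card_erase_le).trans (Finset.card_image_le.trans ?_)
    simp
  have hGdeg : G.natDegree ≤ 2 ^ r * r ^ r := by
    rw [hG]
    refine (natDegree_prod_le _ _).trans ?_
    refine (Finset.sum_le_sum (g := fun _ => r ^ r) fun p hp => ?_).trans ?_
    · obtain ⟨S, -, hS⟩ := Finset.mem_image.1 (Finset.mem_of_mem_erase hp)
      rw [← hS]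
      exact natDegree_minpoly_le β P hm h0 h1 S
    · rw [Finset.sum_const, smul_eq_mul]
      exact Nat.mul_le_mul_right _ hFcard
  have hGzero : ∀ S, s S ∉ Q → aeval (s S) G = 0 := by
    intro S hS
    rw [hG, map_prod]
    apply Finset.prod_eq_zero (i := minpoly ℤ (s S))
    · rw [hF, Finset.mem_erase]
      refine ⟨?_, Finset.mem_image.2 ⟨S, Finset.mem_univ _, rfl⟩⟩
      intro h
      apply hS
      rw [hmemQ, ← h]
      exact minpoly.aeval ℤ _
    · exact minpoly.aeval ℤ _
  have hGlam : aeval lam G ≠ 0 := by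
    rw [hG, map_prod, Finset.prod_ne_zero_iff]
    intro p hp h2
    obtain ⟨hpq, hp'⟩ := Finset.mem_erase.1 hp
    obtain ⟨S, -, hS⟩ := Finset.mem_image.1 hp'
    have h3 : IsIntegral ℤ (s S) := isIntegral_sum β P hm h0 S
    have h4 : q ∣ p := minpoly.isIntegrallyClosed_dvd hlamint h2
    have h5 : Irreducible p := by rw [← hS]; exact minpoly.irreducible h3
    have h6 : Irreducible q := minpoly.irreducible hlamint
    have h7 : Associated q p := h6.associated_of_dvd h5 h4
    apply hpq
    exact (eq_of_monic_of_associated (minpoly.monic hlamint) (by rw [← hS]; exact minpoly.monic h3)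
      h7).symm
  have hbase : 1 ≤ (r + 1) * B := by
    have : (0 : ℝ) ≤ r := Nat.cast_nonneg r
    nlinarith
  set D : ℝ := ((r + 1) * B) ^ (r ^ r) with hD
  have hD1 : 1 ≤ D := one_le_pow₀ hbase
  have hGnorm : ∀ x : ℂ, ‖x‖ ≤ B → ‖aeval x G‖ ≤ D ^ (2 ^ r) := by
    intro x hx
    rw [hG, map_prod]
    refine (Finset.norm_prod_le _ _).trans ?_
    refine (Finset.prod_le_prod (g := fun _ => D) (fun _ _ => norm_nonneg _) fun p hp => ?_).trans ?_
    · obtain ⟨S, -, hS⟩ := Finset.mem_image.1 (Finset.mem_of_mem_erase hp)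
      rw [← hS]
      exact norm_minpoly_le β P hm h0 h1 S B hB hB1 x hx
    · rw [Finset.prod_const]
      exact pow_le_pow_right₀ hD1 hFcard
  -- the sums vanish
  have hvan : ∀ l < n, J β (fun x => aeval x (X ^ l * G)) t k = 0 := by
    intro l hl
    apply isZ_small
    · apply J_poly β hJ
      have h2 : (X ^ l * G : ℤ[X]).natDegree ≤ r ^ r + 2 ^ r * r ^ r := by
        refine natDegree_mul_le.trans ?_
        rw [natDegree_X_pow]
        omega
      omega
    · refine lt_of_le_of_lt ?_ hsmall
      unfold J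
      refine (norm_sum_le _ _).trans ?_
      have h2 : ∀ S ∈ (univ : Finset (Finset (Fin r))),
          ‖(-1) ^ S.card * aeval (∑ j ∈ S, β j) (X ^ l * G) * cho k (t - ∑ j ∈ S, β j)‖ ≤
            B ^ (r ^ r) * D ^ (2 ^ r) * E := by
        intro S _
        by_cases hS : s S ∈ Q
        · obtain ⟨j, hj⟩ := hQroot _ hS
          have h3 : ∑ j ∈ S, β j = β j := hj.symm
          rw [h3, norm_mul, norm_mul, norm_pow, norm_neg, norm_one, one_pow, one_mul, map_mul,
            norm_mul, map_pow, aeval_X, norm_pow]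
          apply mul_le_mul _ (hE j) (norm_nonneg _) (by positivity)
          apply mul_le_mul _ (hGnorm _ (hB j)) (norm_nonneg _) (by positivity)
          calc ‖β j‖ ^ l ≤ B ^ l := pow_le_pow_left₀ (norm_nonneg _) (hB j) l
            _ ≤ B ^ (r ^ r) := pow_le_pow_right₀ hB1 (by omega)
        · have h3 : aeval (∑ j ∈ S, β j) (X ^ l * G) = 0 := by
            rw [map_mul]
            have := hGzero S hS
            simp only [hs] at this
            rw [this, mul_zero]
          rw [h3]
          simp only [mul_zero, zero_mul, norm_zero]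
          positivity
      refine (Finset.sum_le_sum h2).trans ?_
      rw [Finset.sum_const, nsmul_eq_mul]
      simp
  -- Vandermonde
  set mul : ℂ → ℂ := fun x => ∑ S ∈ univ.filter (fun S => s S = x), (-1) ^ S.card with hmul
  have hsum : ∀ l < n, ∑ x ∈ Q, (mul x * aeval x G * cho k (t - x)) * x ^ l = 0 := by
    intro l hl
    rw [← hvan l hl]
    unfold J
    have h2 : ∀ S ∈ (univ : Finset (Finset (Fin r))), S ∉ univ.filter (fun S => s S ∈ Q) →
        (-1) ^ S.card * aeval (∑ j ∈ S, β j) (X ^ l * G) * cho k (t - ∑ j ∈ S, β j) = 0 := by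
      intro S _ hS
      have hS' : s S ∉ Q := fun h => hS (Finset.mem_filter.2 ⟨Finset.mem_univ _, h⟩)
      have := hGzero S hS'
      simp only [hs] at this
      rw [map_mul, this]
      ring
    rw [← Finset.sum_subset (Finset.filter_subset (fun S => s S ∈ Q) univ) h2]
    rw [← Finset.sum_fiberwise_of_maps_to (s := univ.filter (fun S => s S ∈ Q)) (t := Q) (g := s)
      (fun S hS => (Finset.mem_filter.1 hS).2)]
    refine Finset.sum_congr rfl fun x hx => ?_
    rw [hmul]
    simp only
    rw [Finset.sum_mul, Finset.sum_mul, Finset.sum_mul]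
    apply Finset.sum_congr
    · ext S
      simp only [Finset.mem_filter, Finset.mem_univ, true_and]
      constructor
      · intro h
        exact ⟨by rw [h]; exact hx, h⟩
      · exact fun h => h.2
    · intro S hS
      have h3 : ∑ j ∈ S, β j = x := (Finset.mem_filter.1 hS).2
      rw [h3, map_mul, map_pow, aeval_X]
      ring
  have hv : ∀ x ∈ Q, mul x * aeval x G * cho k (t - x) = 0 := by
    set e := Q.equivFinOfCardEq hQcard with he
    have h2 : (fun i : Fin n => mul (e.symm i) * aeval (e.symm i : ℂ) G * cho k (t - e.symm i)) = 0 := by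
      apply Matrix.eq_zero_of_forall_pow_sum_mul_pow_eq_zero (f := fun i : Fin n => (e.symm i : ℂ))
      · exact Subtype.val_injective.comp e.symm.injective
      · intro i
        have h3 := hsum i i.2
        rw [← Finset.sum_coe_sort Q] at h3
        rw [← h3]
        exact Equiv.sum_comp e.symm (fun x : Q =>
          (mul (x : ℂ) * aeval (x : ℂ) G * cho k (t - (x : ℂ))) * (x : ℂ) ^ (i : ℕ))
    intro x hx
    have h3 := congrFun h2 (e ⟨x, hx⟩)
    simpa using h3
  have hfin := hv lam hlamQ
  -- the multiplicity is not zero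
  have hmulne : mul lam ≠ 0 := by
    have h2 : ∀ S ∈ univ.filter (fun S => s S = lam), ((-1 : ℂ)) ^ S.card = -1 := by
      intro S hS
      have hS' : ∑ j ∈ S, β j = lam := (Finset.mem_filter.1 hS).2
      have h3 : S.card = 1 := by
        by_contra hc
        rcases Nat.lt_or_ge S.card 2 with h4 | h4
        · have h5 : S.card = 0 := by omega
          rw [Finset.card_eq_zero] at h5
          rw [h5, Finset.sum_empty] at hS'
          exact hj₀ 0 (by rw [← hS']; simp)
        · -- all summands are integers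
          have h5 : ∀ j ∈ S, ∃ m : ℤ, β j = m := by
            intro j hj
            by_contra h6
            push Not at h6
            have h7 := hmin j h6
            have h8 : (∑ i ∈ S, β i).re = (β j).re + ∑ i ∈ S.erase j, (β i).re := by
              rw [Complex.re_sum]
              exact (Finset.add_sum_erase S (fun i => (β i).re) hj).symm
            have h9 : 0 < ∑ i ∈ S.erase j, (β i).re := by
              apply Finset.sum_pos fun i _ => hre i
              rw [← Finset.card_pos, Finset.card_erase_of_mem hj]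
              omega
            rw [hS'] at h8
            linarith
          have h6 : IsZ (∑ j ∈ S, β j) := isZ_sum _ _ fun j hj => by
            obtain ⟨m, hm'⟩ := h5 j hj
            exact ⟨m, hm'⟩
          rw [hS'] at h6
          obtain ⟨m, hm'⟩ := h6
          exact hj₀ m hm'
      rw [h3, pow_one]
    rw [hmul]
    simp only
    rw [Finset.sum_congr rfl h2, Finset.sum_const, nsmul_eq_mul]
    have h3 : 0 < (univ.filter (fun S => s S = lam)).card :=
      Finset.card_pos.2 ⟨{j₀}, Finset.mem_filter.2 ⟨Finset.mem_univ _, hsingle⟩⟩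
    have h4 : (((univ.filter (fun S => s S = lam)).card : ℕ) : ℂ) ≠ 0 := by exact_mod_cast h3.ne'
    simpa using h4
  have h2 : cho k (t - lam) = 0 := by
    rcases mul_eq_zero.1 hfin with h3 | h3
    · rcases mul_eq_zero.1 h3 with h4 | h4
      · exact absurd h4 hmulne
      · exact absurd h4 hGlam
    · exact h3
  obtain ⟨i, hi⟩ := cho_eq_zero h2
  exact hj₀ (t - i) (by push_cast; linear_combination -hi)

end Pool.Agent.K6.H50.CO
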