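import Pool.Agent.K6.H50.CI

/-!
# Binomial coefficients `C(x, k)` with nearly real `x` between `0` and `k` are small
-/

set_option autoImplicit false

namespace Pool.Agent.K6.H50.SZ

open Finset Pool.Agent.K6.H50.CI

theorem gamma_prod (x : ℂ) (k : ℕ) (h : ∀ i < k, x ≠ i) :
    Complex.Gamma (x + 1) = (∏ i ∈ range k, (x - i)) * Complex.Gamma (x + 1 - k) := by
  induction k with
  | zero => simp
  | succ k ih =>
    rw [ih fun i hi => h i (by omega), Finset.prod_range_succ]
    have h1 : x - k ≠ 0 := sub_ne_zero.2 (h k (by omega))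
    have h2 := Complex.Gamma_add_one (x - k) h1
    rw [show x + 1 - (k : ℂ) = x - k + 1 by ring, h2]
    push_cast
    rw [show x + 1 - ((k : ℂ) + 1) = x - k by ring]
    ring

theorem norm_sin_le (z : ℂ) : ‖Complex.sin z‖ ≤ Real.exp |z.im| := by
  rw [Complex.sin]
  have h1 : ‖Complex.exp (-z * Complex.I)‖ ≤ Real.exp |z.im| := by
    rw [Complex.norm_exp]
    apply Real.exp_le_exp.2
    simp
    exact le_abs_self _
  have h2 : ‖Complex.exp (z * Complex.I)‖ ≤ Real.exp |z.im| := by
    rw [Complex.norm_exp]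
    apply Real.exp_le_exp.2
    simp
    linarith [neg_le_abs z.im, neg_abs_le z.im]
  rw [norm_div, norm_mul, Complex.norm_I, mul_one, Complex.norm_two]
  have h3 := norm_sub_le (Complex.exp (-z * Complex.I)) (Complex.exp (z * Complex.I))
  rw [div_le_iff₀ (by norm_num)]
  linarith

/-- the integral -/
theorem beta_le (x : ℂ) (k : ℕ) (e : ℝ) (he : 0 < e) (h1 : e ≤ x.re) (h2 : e ≤ k - 1 - x.re) :
    ‖Complex.betaIntegral (x + 1) (k - x)‖ ≤ (4 : ℝ) ^ (-e) := by
  unfold Complex.betaIntegral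
  have h3 : ∀ t ∈ Set.uIoc (0 : ℝ) 1,
      ‖(t : ℂ) ^ (x + 1 - 1) * (1 - (t : ℂ)) ^ ((k : ℂ) - x - 1)‖ ≤ (4 : ℝ) ^ (-e) := by
    intro t ht
    rw [Set.uIoc_of_le zero_le_one] at ht
    rw [norm_mul]
    rcases eq_or_lt_of_le ht.2 with h | h
    · rw [h]
      have h4 : ((k : ℂ) - x - 1) ≠ 0 := by
        intro h5
        have := congrArg Complex.re h5
        simp at this
        linarith
      simp only [Complex.ofReal_one, sub_self]
      rw [Complex.zero_cpow h4]
      simp
      positivity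
    · have h0 : 0 < t := ht.1
      have h10 : 0 < 1 - t := by linarith
      rw [Complex.norm_cpow_eq_rpow_re_of_pos h0]
      rw [show (1 : ℂ) - (t : ℂ) = ((1 - t : ℝ) : ℂ) by push_cast; ring]
      rw [Complex.norm_cpow_eq_rpow_re_of_pos h10]
      have h5 : (x + 1 - 1).re = x.re := by simp
      have h6 : ((k : ℂ) - x - 1).re = k - 1 - x.re := by simp; ring
      rw [h5, h6]
      calc t ^ x.re * (1 - t) ^ ((k : ℝ) - 1 - x.re) ≤ t ^ e * (1 - t) ^ e := by
            apply mul_le_mul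
            · exact Real.rpow_le_rpow_of_exponent_ge h0 h.le h1
            · exact Real.rpow_le_rpow_of_exponent_ge h10 (by linarith) h2
            · positivity
            · positivity
        _ = (t * (1 - t)) ^ e := (Real.mul_rpow h0.le h10.le).symm
        _ ≤ (1 / 4 : ℝ) ^ e := by
            apply Real.rpow_le_rpow (by positivity) _ he.le
            nlinarith [sq_nonneg (t - 1 / 2)]
        _ = (4 : ℝ) ^ (-e) := by
            rw [one_div, Real.inv_rpow (by norm_num), Real.rpow_neg (by norm_num)]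
  have h7 := intervalIntegral.norm_integral_le_of_norm_le_const h3
  simpa using h7

/-- **The size of binomial coefficients.** -/
theorem cho_le (x : ℂ) (k : ℕ) (e : ℝ) (he : 0 < e) (h1 : e ≤ x.re) (h2 : e ≤ k - 1 - x.re) :
    ‖cho k x‖ ≤ Real.exp (Real.pi * |x.im|) * (4 : ℝ) ^ (-e) := by
  by_cases hx : ∃ i < k, x = (i : ℂ)
  · obtain ⟨i, hi, hxi⟩ := hx
    have h3 : cho k x = 0 := by
      unfold cho
      rw [Finset.prod_eq_zero (Finset.mem_range.2 hi), zero_div]
      rw [hxi, sub_self]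
    rw [h3, norm_zero]
    positivity
  push Not at hx
  have hg := gamma_prod x k hx
  have hkf : (k.factorial : ℂ) ≠ 0 := by exact_mod_cast k.factorial_ne_zero
  have hb := Complex.Gamma_mul_Gamma_eq_betaIntegral (s := x + 1) (t := (k : ℂ) - x)
    (by simp; linarith) (by simp; linarith)
  have h3 : x + 1 + ((k : ℂ) - x) = k + 1 := by ring
  rw [h3, Complex.Gamma_nat_eq_factorial] at hb
  have hr := Complex.Gamma_mul_Gamma_one_sub ((k : ℂ) - x)
  rw [show 1 - ((k : ℂ) - x) = x + 1 - k by ring] at hr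
  have hsin : Complex.sin (Real.pi * ((k : ℂ) - x)) ≠ 0 := by
    intro h4
    rw [Complex.sin_eq_zero_iff] at h4
    obtain ⟨n, hn⟩ := h4
    have hπ : (Real.pi : ℂ) ≠ 0 := by exact_mod_cast Real.pi_ne_zero
    have h5 : (k : ℂ) - x = n := by
      have : (Real.pi : ℂ) * ((k : ℂ) - x) = Real.pi * n := by rw [hn]; ring
      exact mul_left_cancel₀ hπ this
    have h6 : x = ((k - n : ℤ) : ℂ) := by push_cast; linear_combination -h5
    have h7 : x.re = ((k - n : ℤ) : ℝ) := by rw [h6]; simp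
    have h8 : (0 : ℝ) < ((k - n : ℤ) : ℝ) := by rw [← h7]; linarith
    have h9 : ((k - n : ℤ) : ℝ) < (k : ℝ) := by rw [← h7]; linarith
    have h10 : 0 < (k : ℤ) - n := by exact_mod_cast h8
    have h11 : (k : ℤ) - n < k := by exact_mod_cast h9
    obtain ⟨i, hi⟩ : ∃ i : ℕ, (k : ℤ) - n = i := ⟨((k : ℤ) - n).toNat, by omega⟩
    exact hx i (by omega) (by rw [h6, hi]; simp)
  have hπ : (Real.pi : ℂ) ≠ 0 := by exact_mod_cast Real.pi_ne_zero
  have hr' : Complex.Gamma ((k : ℂ) - x) * Complex.Gamma (x + 1 - k) *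
      Complex.sin (Real.pi * ((k : ℂ) - x)) = Real.pi := by
    rw [hr]
    field_simp
  have h4 : cho k x = Complex.betaIntegral (x + 1) (k - x) *
      Complex.sin (Real.pi * ((k : ℂ) - x)) / Real.pi := by
    unfold cho
    rw [div_eq_div_iff hkf hπ]
    rw [hg] at hb
    linear_combination (Complex.sin (Real.pi * ((k : ℂ) - x))) * hb -
      (∏ i ∈ range k, (x - (i : ℂ))) * hr'
  rw [h4, norm_div, norm_mul]
  have h5 := beta_le x k e he h1 h2
  have h6 := norm_sin_le (Real.pi * ((k : ℂ) - x))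
  have h7 : |((Real.pi : ℂ) * ((k : ℂ) - x)).im| = Real.pi * |x.im| := by
    simp [Complex.mul_im, abs_mul, abs_of_pos Real.pi_pos]
  rw [h7] at h6
  have h8 : ‖(Real.pi : ℂ)‖ = Real.pi := by
    rw [Complex.norm_real, Real.norm_eq_abs, abs_of_pos Real.pi_pos]
  rw [h8, div_le_iff₀ Real.pi_pos]
  have h9 : (1 : ℝ) ≤ Real.pi := by linarith [Real.pi_gt_three]
  calc ‖Complex.betaIntegral (x + 1) (k - x)‖ * ‖Complex.sin (Real.pi * ((k : ℂ) - x))‖
      ≤ (4 : ℝ) ^ (-e) * Real.exp (Real.pi * |x.im|) :=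
        mul_le_mul h5 h6 (norm_nonneg _) (by positivity)
    _ ≤ Real.exp (Real.pi * |x.im|) * (4 : ℝ) ^ (-e) * Real.pi := by
        have : 0 ≤ Real.exp (Real.pi * |x.im|) * (4 : ℝ) ^ (-e) := by positivity
        nlinarith

end Pool.Agent.K6.H50.SZ
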