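import Pool.Agent.K6.H50.SP
import Pool.Agent.K6.H50.SZ
import Pool.Agent.K6.H50.CO

/-!
# Chern roots in a strip of width less than `N` are integers
-/

set_option autoImplicit false

namespace Pool.Agent.K6.H50.FN

open Finset Polynomial Filter Pool.Agent.K6.H50.CI Pool.Agent.K6.H50.NR

theorem eventually_small (r : ℕ) (a : ℝ) (ha : 0 < a) :
    ∀ᶠ N : ℕ in atTop, 2 ^ r * ((2 * (N : ℝ) ^ 2) ^ (r ^ r) *
      (((r + 1) * (2 * (N : ℝ) ^ 2)) ^ (r ^ r)) ^ (2 ^ r) * Real.exp (-(a * N))) < 1 := by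
  set M : ℕ := 2 * r ^ r + 2 * (r ^ r * 2 ^ r) with hM
  set K : ℝ := 2 ^ r * (2 ^ (r ^ r) * (((r : ℝ) + 1) * 2) ^ (r ^ r * 2 ^ r)) with hK
  have h1 : Tendsto (fun N : ℕ => (K / a ^ M) * ((a * N) ^ M * Real.exp (-(a * N)))) atTop (nhds 0) := by
    have h2 := (Real.tendsto_pow_mul_exp_neg_atTop_nhds_zero M).comp
      (tendsto_natCast_atTop_atTop.const_mul_atTop ha)
    simpa using h2.const_mul (K / a ^ M)
  have h3 := h1.eventually (gt_mem_nhds (show (0 : ℝ) < 1 by norm_num))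
  filter_upwards [h3] with N hN
  refine lt_of_eq_of_lt ?_ hN
  have h4 : a ^ M ≠ 0 := by positivity
  rw [hK, hM]
  rw [hM] at h4
  rw [mul_pow (a : ℝ) (N : ℝ), mul_pow (2 : ℝ) ((N : ℝ) ^ 2), ← pow_mul (((r : ℝ) + 1) * _),
    ← mul_assoc ((r : ℝ) + 1) 2, mul_pow (((r : ℝ) + 1) * 2) ((N : ℝ) ^ 2)]
  rw [← pow_mul (N : ℝ) 2 (r ^ r), ← pow_mul (N : ℝ) 2 (r ^ r * 2 ^ r),
    pow_add (N : ℝ)]
  field_simp

/-- Chern roots in a strip of width less than `N` are integers. -/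
theorem window (r : ℕ) (hr : 1 ≤ r) (e : ℝ) (he : 0 < e) (he1 : e ≤ 1) :
    ∃ N₀ : ℕ, ∀ N ≥ N₀, ∀ (c : ℤ[X]) (β : Fin r → ℂ),
      c.map (Int.castRingHom ℂ) = ∏ j, (1 + C (β j) * X) →
      (∀ (m : ℕ) (lam : Fin m → ℕ), Antitone lam → (∀ i, lam i ≤ r) → ∑ i, lam i ≤ N - r →
        0 < schur c lam) →
      (∀ t : ℤ, IsZ (J β (fun _ => 1) t N)) →
      (c.coeff 1 : ℝ) ≤ e / (400 * r ^ 2) * N ^ 2 →
      (∀ i j, (β i).re - (β j).re ≤ (1 - e) * N) →
      ∀ j, ∃ n : ℤ, β j = n := by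
  have hr0 : (0 : ℝ) < r := by exact_mod_cast hr
  obtain ⟨N₁, hN₁⟩ := eventually_atTop.1 (eventually_small r (e / 8) (by linarith))
  set D0 : ℕ := r ^ r + 2 ^ r * r ^ r with hD0
  refine ⟨max N₁ (max (4 * r) (max (7 * r ^ 2) (Nat.ceil (2 * (D0 + 2) / e) + D0 + 1))), ?_⟩
  intro N hN c β hc hpos hJ hc1 hspread
  have hN1 : N₁ ≤ N := (le_max_left _ _).trans hN
  have hN2 : 4 * r ≤ N := (le_max_left _ _).trans ((le_max_right _ _).trans hN)
  have hN3 : 7 * r ^ 2 ≤ N :=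
    (le_max_left _ _).trans ((le_max_right _ _).trans ((le_max_right _ _).trans hN))
  have hN4 : Nat.ceil (2 * (D0 + 2) / e) + D0 + 1 ≤ N :=
    (le_max_right _ _).trans ((le_max_right _ _).trans ((le_max_right _ _).trans hN))
  have hNpos : 0 < N := by omega
  have hNR : (1 : ℝ) ≤ N := by exact_mod_cast hNpos
  have hND : 2 * ((D0 : ℝ) + 2) ≤ e * N := by
    have h1 : (2 * ((D0 : ℝ) + 2) / e) ≤ N := by
      refine (Nat.le_ceil _).trans ?_
      exact_mod_cast (show Nat.ceil (2 * ((D0 : ℝ) + 2) / e) ≤ N by omega)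
    rw [div_le_iff₀ he] at h1
    linarith
  have hnr := fun j => near_real hr hN2 hN3 c β hc hpos j
  have hsum := SP.sum_re c β hc
  -- bounds for the roots
  have hx : ∀ j, (β j).re ≤ c.coeff 1 := by
    intro j
    rw [← hsum]
    exact Finset.single_le_sum (f := fun j => (β j).re) (fun i _ => (hnr i).1.le) (Finset.mem_univ j)
  set δ : ℝ := e / (400 * r ^ 2) with hδ
  have hδ1 : δ ≤ 1 := by
    rw [hδ, div_le_one (by positivity)]
    have : (1 : ℝ) ≤ r := by exact_mod_cast hr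
    nlinarith
  have hB : ∀ j, ‖β j‖ ≤ 2 * (N : ℝ) ^ 2 := by
    intro j
    calc ‖β j‖ ≤ 2 * (β j).re := (hnr j).2.2
      _ ≤ 2 * (δ * N ^ 2) := by linarith [hx j]
      _ ≤ 2 * (N : ℝ) ^ 2 := by nlinarith [sq_nonneg (N : ℝ)]
  have him : ∀ j, Real.pi * |(β j).im| ≤ e / 8 * N := by
    intro j
    have h1 := (hnr j).2.1
    have h2 : |(β j).im| ≤ 13 * r ^ 2 / N * (δ * N ^ 2) :=
      h1.trans (mul_le_mul_of_nonneg_left ((hx j).trans hc1) (by positivity))
    have h3 : 13 * (r : ℝ) ^ 2 / N * (δ * N ^ 2) = 13 / 400 * e * N := by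
      rw [hδ]
      field_simp
    rw [h3] at h2
    have hπ := Real.pi_lt_d2
    have hπ0 := Real.pi_pos
    have heN : 0 < e * N := by positivity
    calc Real.pi * |(β j).im| ≤ Real.pi * (13 / 400 * e * N) :=
          mul_le_mul_of_nonneg_left h2 hπ0.le
      _ ≤ 3.15 * (13 / 400 * e * N) := by
          apply mul_le_mul_of_nonneg_right hπ.le
          positivity
      _ ≤ e / 8 * N := by nlinarith
  obtain ⟨P, hPm, hP0, hP1⟩ := SP.exists_P c β hc
    fun j => (arg_bound' hr hN2 c β hc hpos j).1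
  -- the window
  obtain ⟨j₁, -, hj₁⟩ := Finset.exists_max_image (univ : Finset (Fin r)) (fun j => (β j).re)
    ⟨⟨0, hr⟩, Finset.mem_univ _⟩
  set t : ℤ := ⌈(β j₁).re + e * N / 4⌉ with ht
  have ht1 : (β j₁).re + e * N / 4 ≤ t := Int.le_ceil _
  have ht2 : (t : ℝ) < (β j₁).re + e * N / 4 + 1 := Int.ceil_lt_add_one _
  have hkcast : ((N - D0 : ℕ) : ℝ) = N - D0 := by
    rw [Nat.cast_sub (by omega)]
  have hcho : ∀ j, ‖cho (N - D0) (t - β j)‖ ≤ Real.exp (-(e / 8 * N)) := by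
    intro j
    have hre : ((t : ℂ) - β j).re = t - (β j).re := by simp
    have him' : ((t : ℂ) - β j).im = -(β j).im := by simp
    have h1 := hj₁ j (Finset.mem_univ j)
    have h2 := hspread j₁ j
    have h3 := SZ.cho_le (t - β j) (N - D0) (e * N / 4) (by positivity)
      (by rw [hre]; linarith) (by rw [hre, hkcast]; linarith)
    refine h3.trans ?_
    rw [him', abs_neg]
    have h4 : (4 : ℝ) ^ (-(e * N / 4)) ≤ Real.exp (-(e * N / 4)) := by
      rw [Real.rpow_def_of_pos (by norm_num)]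
      apply Real.exp_le_exp.2
      have h5 : (1 : ℝ) ≤ Real.log 4 := by
        rw [Real.le_log_iff_exp_le (by norm_num)]
        linarith [Real.exp_one_lt_d9]
      have h6 : 0 ≤ e * N / 4 := by positivity
      nlinarith
    calc Real.exp (Real.pi * |(β j).im|) * (4 : ℝ) ^ (-(e * N / 4))
        ≤ Real.exp (e / 8 * N) * Real.exp (-(e * N / 4)) :=
          mul_le_mul (Real.exp_le_exp.2 (him j)) h4 (by positivity) (by positivity)
      _ = Real.exp (-(e / 8 * N)) := by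
          rw [← Real.exp_add]
          congr 1
          ring
  refine CO.core (N := N) (k := N - D0) β P hPm hP0 hP1 (fun j => (hnr j).1) hJ (by omega) t
    (2 * (N : ℝ) ^ 2) (Real.exp (-(e / 8 * N))) (by nlinarith) hB hcho (hN₁ N hN1)

end Pool.Agent.K6.H50.FN
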