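import Pool.Agent.K6.H50.SZ

/-!
# Binomial coefficients `C(x, k)`: a bound of order `k ^ (-e)`
-/

set_option autoImplicit false

namespace Pool.Agent.K6.H50.SZ

open Finset Pool.Agent.K6.H50.CI

theorem pow_exp_le (s M e : ℝ) (h0 : 0 ≤ s) (h1 : s ≤ 1) (hM : 0 < M) (he : 0 < e) :
    (1 - s) ^ M * s ^ e ≤ (e / M) ^ e := by
  have h2 : (1 - s) ^ M ≤ Real.exp (-(s * M)) := by
    have h3 : 1 - s ≤ Real.exp (-s) := by
      have := Real.add_one_le_exp (-s)
      linarith
    calc (1 - s) ^ M ≤ (Real.exp (-s)) ^ M := Real.rpow_le_rpow (by linarith) h3 hM.le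
      _ = Real.exp (-(s * M)) := by
        rw [← Real.exp_mul]
        congr 1
        ring
  have h4 : Real.exp (-(s * M)) * s ^ e = (Real.exp (-(s * M / e)) * s) ^ e := by
    rw [Real.mul_rpow (Real.exp_pos _).le h0, ← Real.exp_mul]
    congr 2
    field_simp
  have h5 : Real.exp (-(s * M / e)) * s ≤ e / M := by
    have h6 := Real.add_one_le_exp (s * M / e)
    have h7 : s * M / e ≤ Real.exp (s * M / e) := by linarith
    have h8 : Real.exp (-(s * M / e)) * (s * M / e) ≤ 1 := by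
      calc Real.exp (-(s * M / e)) * (s * M / e)
          ≤ Real.exp (-(s * M / e)) * Real.exp (s * M / e) :=
            mul_le_mul_of_nonneg_left h7 (Real.exp_pos _).le
        _ = 1 := by rw [← Real.exp_add, neg_add_cancel, Real.exp_zero]
    calc Real.exp (-(s * M / e)) * s = Real.exp (-(s * M / e)) * (s * M / e) * (e / M) := by
          field_simp
      _ ≤ 1 * (e / M) := mul_le_mul_of_nonneg_right h8 (by positivity)
      _ = e / M := one_mul _
  calc (1 - s) ^ M * s ^ e ≤ Real.exp (-(s * M)) * s ^ e :=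
        mul_le_mul_of_nonneg_right h2 (Real.rpow_nonneg h0 _)
    _ = (Real.exp (-(s * M / e)) * s) ^ e := h4
    _ ≤ (e / M) ^ e := Real.rpow_le_rpow (by positivity) h5 he.le

/-- the integral -/
theorem beta_le' (x : ℂ) (k : ℕ) (e : ℝ) (he : 0 < e) (h1 : e ≤ x.re) (h2 : e ≤ k - 1 - x.re) :
    ‖Complex.betaIntegral (x + 1) (k - x)‖ ≤ (e / (k - 1 - e)) ^ e := by
  have hM : 0 < (k : ℝ) - 1 - e := by linarith
  have hCpos : 0 ≤ (e / ((k : ℝ) - 1 - e)) ^ e := by positivity
  unfold Complex.betaIntegral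
  have h3 : ∀ t ∈ Set.uIoc (0 : ℝ) 1,
      ‖(t : ℂ) ^ (x + 1 - 1) * (1 - (t : ℂ)) ^ ((k : ℂ) - x - 1)‖ ≤ (e / (k - 1 - e)) ^ e := by
    intro t ht
    rw [Set.uIoc_of_le zero_le_one] at ht
    rw [norm_mul]
    rcases eq_or_lt_of_le ht.2 with h | h
    · rw [h]
      have h4 : ((k : ℂ) - x - 1) ≠ 0 := by
        intro h5
        have := congrArg Complex.re h5
        simp at this
        linarith
      simp only [Complex.ofReal_one, sub_self]
      rw [Complex.zero_cpow h4]
      simpa using hCpos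
    · have h0 : 0 < t := ht.1
      have h10 : 0 < 1 - t := by linarith
      rw [Complex.norm_cpow_eq_rpow_re_of_pos h0]
      rw [show (1 : ℂ) - (t : ℂ) = ((1 - t : ℝ) : ℂ) by push_cast; ring]
      rw [Complex.norm_cpow_eq_rpow_re_of_pos h10]
      have h5 : (x + 1 - 1).re = x.re := by simp
      have h6 : ((k : ℂ) - x - 1).re = k - 1 - x.re := by simp; ring
      rw [h5, h6]
      rcases le_total (1 / 2) t with h7 | h7
      · have h8 : (1 - t) ^ ((k : ℝ) - 1 - x.re) ≤ (1 - t) ^ e * t ^ ((k : ℝ) - 1 - x.re - e) := by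
          rw [show (k : ℝ) - 1 - x.re = e + ((k : ℝ) - 1 - x.re - e) by ring, Real.rpow_add h10]
          rw [show e + ((k : ℝ) - 1 - x.re - e) - e = (k : ℝ) - 1 - x.re - e by ring]
          apply mul_le_mul_of_nonneg_left _ (by positivity)
          exact Real.rpow_le_rpow h10.le (by linarith) (by linarith)
        calc t ^ x.re * (1 - t) ^ ((k : ℝ) - 1 - x.re)
            ≤ t ^ x.re * ((1 - t) ^ e * t ^ ((k : ℝ) - 1 - x.re - e)) :=
              mul_le_mul_of_nonneg_left h8 (by positivity)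
          _ = (1 - (1 - t)) ^ ((k : ℝ) - 1 - e) * (1 - t) ^ e := by
              rw [show 1 - (1 - t) = t by ring]
              rw [show (k : ℝ) - 1 - e = x.re + ((k : ℝ) - 1 - x.re - e) by ring, Real.rpow_add h0]
              ring
          _ ≤ _ := pow_exp_le (1 - t) _ e h10.le (by linarith) hM he
      · have h8 : t ^ x.re ≤ t ^ e * (1 - t) ^ (x.re - e) := by
          rw [show x.re = e + (x.re - e) by ring, Real.rpow_add h0]
          rw [show e + (x.re - e) - e = x.re - e by ring]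
          apply mul_le_mul_of_nonneg_left _ (by positivity)
          exact Real.rpow_le_rpow h0.le (by linarith) (by linarith)
        calc t ^ x.re * (1 - t) ^ ((k : ℝ) - 1 - x.re)
            ≤ (t ^ e * (1 - t) ^ (x.re - e)) * (1 - t) ^ ((k : ℝ) - 1 - x.re) :=
              mul_le_mul_of_nonneg_right h8 (by positivity)
          _ = (1 - t) ^ ((k : ℝ) - 1 - e) * t ^ e := by
              rw [show (k : ℝ) - 1 - e = (x.re - e) + ((k : ℝ) - 1 - x.re) by ring,
                Real.rpow_add h10]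
              ring
          _ ≤ _ := pow_exp_le t _ e h0.le h.le hM he
  have h7 := intervalIntegral.norm_integral_le_of_norm_le_const h3
  simpa using h7

/-- The size of binomial coefficients, with the bound for the integral as an assumption. -/
theorem cho_le_of_beta (x : ℂ) (k : ℕ) (e : ℝ) (he : 0 < e) (h1 : e ≤ x.re)
    (h2 : e ≤ k - 1 - x.re) (T : ℝ) (hT : 0 ≤ T)
    (h5 : ‖Complex.betaIntegral (x + 1) (k - x)‖ ≤ T) :
    ‖cho k x‖ ≤ Real.exp (Real.pi * |x.im|) * T := by
  by_cases hx : ∃ i < k, x = (i : ℂ)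
  · obtain ⟨i, hi, hxi⟩ := hx
    have h3 : cho k x = 0 := by
      unfold cho
      rw [Finset.prod_eq_zero (Finset.mem_range.2 hi), zero_div]
      rw [hxi, sub_self]
    rw [h3, norm_zero]
    positivity
  push Not at hx
  have hg := gamma_prod x k hx
  have hkf : (k.factorial : ℂ) ≠ 0 := by exact_mod_cast k.factorial_ne_zero
  have hb := Complex.Gamma_mul_Gamma_eq_betaIntegral (s := x + 1) (t := (k : ℂ) - x)
    (by simp; linarith) (by simp; linarith)
  have h3 : x + 1 + ((k : ℂ) - x) = k + 1 := by ring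
  rw [h3, Complex.Gamma_nat_eq_factorial] at hb
  have hr := Complex.Gamma_mul_Gamma_one_sub ((k : ℂ) - x)
  rw [show 1 - ((k : ℂ) - x) = x + 1 - k by ring] at hr
  have hsin : Complex.sin (Real.pi * ((k : ℂ) - x)) ≠ 0 := by
    intro h4
    rw [Complex.sin_eq_zero_iff] at h4
    obtain ⟨n, hn⟩ := h4
    have hπ : (Real.pi : ℂ) ≠ 0 := by exact_mod_cast Real.pi_ne_zero
    have h5 : (k : ℂ) - x = n := by
      have : (Real.pi : ℂ) * ((k : ℂ) - x) = Real.pi * n := by rw [hn]; ring
      exact mul_left_cancel₀ hπ this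
    have h6 : x = ((k - n : ℤ) : ℂ) := by push_cast; linear_combination -h5
    have h7 : x.re = ((k - n : ℤ) : ℝ) := by rw [h6]; simp
    have h8 : (0 : ℝ) < ((k - n : ℤ) : ℝ) := by rw [← h7]; linarith
    have h9 : ((k - n : ℤ) : ℝ) < (k : ℝ) := by rw [← h7]; linarith
    have h10 : 0 < (k : ℤ) - n := by exact_mod_cast h8
    have h11 : (k : ℤ) - n < k := by exact_mod_cast h9
    obtain ⟨i, hi⟩ : ∃ i : ℕ, (k : ℤ) - n = i := ⟨((k : ℤ) - n).toNat, by omega⟩
    exact hx i (by omega) (by rw [h6, hi]; simp)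
  have hπ : (Real.pi : ℂ) ≠ 0 := by exact_mod_cast Real.pi_ne_zero
  have hr' : Complex.Gamma ((k : ℂ) - x) * Complex.Gamma (x + 1 - k) *
      Complex.sin (Real.pi * ((k : ℂ) - x)) = Real.pi := by
    rw [hr]
    field_simp
  have h4 : cho k x = Complex.betaIntegral (x + 1) (k - x) *
      Complex.sin (Real.pi * ((k : ℂ) - x)) / Real.pi := by
    unfold cho
    rw [div_eq_div_iff hkf hπ]
    rw [hg] at hb
    linear_combination (Complex.sin (Real.pi * ((k : ℂ) - x))) * hb -
      (∏ i ∈ range k, (x - (i : ℂ))) * hr'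
  rw [h4, norm_div, norm_mul]
  have h6 := norm_sin_le (Real.pi * ((k : ℂ) - x))
  have h7 : |((Real.pi : ℂ) * ((k : ℂ) - x)).im| = Real.pi * |x.im| := by
    simp [Complex.mul_im, abs_mul, abs_of_pos Real.pi_pos]
  rw [h7] at h6
  have h8 : ‖(Real.pi : ℂ)‖ = Real.pi := by
    rw [Complex.norm_real, Real.norm_eq_abs, abs_of_pos Real.pi_pos]
  rw [h8, div_le_iff₀ Real.pi_pos]
  have h9 : (1 : ℝ) ≤ Real.pi := by linarith [Real.pi_gt_three]
  calc ‖Complex.betaIntegral (x + 1) (k - x)‖ * ‖Complex.sin (Real.pi * ((k : ℂ) - x))‖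
      ≤ T * Real.exp (Real.pi * |x.im|) :=
        mul_le_mul h5 h6 (norm_nonneg _) hT
    _ ≤ Real.exp (Real.pi * |x.im|) * T * Real.pi := by
        have : 0 ≤ Real.exp (Real.pi * |x.im|) * T := by positivity
        nlinarith

theorem cho_le' (x : ℂ) (k : ℕ) (e : ℝ) (he : 0 < e) (h1 : e ≤ x.re) (h2 : e ≤ k - 1 - x.re) :
    ‖cho k x‖ ≤ Real.exp (Real.pi * |x.im|) * (e / (k - 1 - e)) ^ e := by
  have hM : 0 < (k : ℝ) - 1 - e := by linarith
  exact cho_le_of_beta x k e he h1 h2 _ (by positivity) (beta_le' x k e he h1 h2)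

end Pool.Agent.K6.H50.SZ
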