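import Pool.Agent.K6.H50.SP
import Pool.Agent.K6.H50.SZ2
import Pool.Agent.K6.H50.CO

/-!
# Chern roots in a strip of width `N - C` are integers, if `c_1 ≤ A N`
-/

set_option autoImplicit false

namespace Pool.Agent.K6.H50.FN

open Finset Polynomial Filter Pool.Agent.K6.H50.CI Pool.Agent.K6.H50.NR

theorem window2 (r : ℕ) (hr : 1 ≤ r) (A : ℝ) (hA : 1 ≤ A) :
    ∃ C₀ : ℕ, ∀ (N : ℕ) (c : ℤ[X]) (β : Fin r → ℂ),
      c.map (Int.castRingHom ℂ) = ∏ j, (1 + C (β j) * X) →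
      (∀ (m : ℕ) (lam : Fin m → ℕ), Antitone lam → (∀ i, lam i ≤ r) → ∑ i, lam i ≤ N - r →
        0 < schur c lam) →
      (∀ t : ℤ, IsZ (J β (fun _ => 1) t N)) →
      (c.coeff 1 : ℝ) ≤ A * N →
      (∀ i j, (β i).re - (β j).re ≤ (N : ℝ) - C₀) →
      ∀ j, ∃ n : ℤ, β j = n := by
  have hr0 : (0 : ℝ) < r := by exact_mod_cast hr
  set D0 : ℕ := r ^ r + 2 ^ r * r ^ r with hD0
  set M : ℕ := r ^ r + r ^ r * 2 ^ r with hM
  set Y : ℝ := 13 * r ^ 2 * A with hY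
  set K : ℝ := 2 ^ r * ((2 * A) ^ (r ^ r) * (((r : ℝ) + 1) * (2 * A)) ^ (r ^ r * 2 ^ r) *
    (Real.exp (Real.pi * Y) * (2 * ((M : ℝ) + 1)) ^ (M + 1))) with hK
  have hK0 : 0 < K := by positivity
  refine ⟨4 * r + 7 * r ^ 2 + (Nat.ceil K + 1) + 2 * (D0 + 1 + (M + 1)) + 2 * (M + 1), ?_⟩
  intro N c β hc hpos hJ hc1 hspread
  obtain ⟨L, hL⟩ : ∃ L : ℕ, L = Nat.ceil K := ⟨_, rfl⟩
  have hLK : K ≤ L := by rw [hL]; exact Nat.le_ceil _
  rw [← hL] at hspread
  have hC : 4 * r + 7 * r ^ 2 + (L + 1) + 2 * (D0 + 1 + (M + 1)) + 2 * (M + 1) ≤ N := by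
    have h1 := hspread ⟨0, hr⟩ ⟨0, hr⟩
    rw [sub_self] at h1
    have h2 : ((4 * r + 7 * r ^ 2 + (L + 1) + 2 * (D0 + 1 + (M + 1)) + 2 * (M + 1) : ℕ) : ℝ) ≤ N := by
      linarith
    exact_mod_cast h2
  have hN2 : 4 * r ≤ N := by omega
  have hN3 : 7 * r ^ 2 ≤ N := by omega
  have hNpos : 0 < N := by omega
  have hNR : (1 : ℝ) ≤ N := by exact_mod_cast hNpos
  have hN0 : (0 : ℝ) < N := by linarith
  have hKN : K < N := by
    have h1 : ((L + 1 : ℕ) : ℝ) ≤ N := by exact_mod_cast (show L + 1 ≤ N by omega)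
    push_cast at h1
    linarith
  have hnr := fun j => near_real hr hN2 hN3 c β hc hpos j
  have hsum := SP.sum_re c β hc
  have hx : ∀ j, (β j).re ≤ c.coeff 1 := by
    intro j
    rw [← hsum]
    exact Finset.single_le_sum (f := fun j => (β j).re) (fun i _ => (hnr i).1.le) (Finset.mem_univ j)
  have hB : ∀ j, ‖β j‖ ≤ 2 * A * N := by
    intro j
    calc ‖β j‖ ≤ 2 * (β j).re := (hnr j).2.2
      _ ≤ 2 * (A * N) := by linarith [hx j]
      _ = 2 * A * N := by ring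
  have him : ∀ j, |(β j).im| ≤ Y := by
    intro j
    have h1 := (hnr j).2.1
    have h2 : |(β j).im| ≤ 13 * r ^ 2 / N * (A * N) :=
      h1.trans (mul_le_mul_of_nonneg_left ((hx j).trans hc1) (by positivity))
    have h3 : 13 * (r : ℝ) ^ 2 / N * (A * N) = Y := by
      rw [hY]
      field_simp
    rw [h3] at h2
    exact h2
  obtain ⟨P, hPm, hP0, hP1⟩ := SP.exists_P c β hc
    fun j => (arg_bound' hr hN2 c β hc hpos j).1
  obtain ⟨j₁, -, hj₁⟩ := Finset.exists_max_image (univ : Finset (Fin r)) (fun j => (β j).re)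
    ⟨⟨0, hr⟩, Finset.mem_univ _⟩
  set e : ℝ := (M : ℝ) + 1 with he
  have he0 : 0 < e := by positivity
  set t : ℤ := ⌈(β j₁).re + e⌉ with ht
  have ht1 : (β j₁).re + e ≤ t := Int.le_ceil _
  have ht2 : (t : ℝ) < (β j₁).re + e + 1 := Int.ceil_lt_add_one _
  have hkcast : ((N - D0 : ℕ) : ℝ) = N - D0 := by
    rw [Nat.cast_sub (by omega)]
  have hhalf : (N : ℝ) / 2 ≤ (N : ℝ) - D0 - 1 - e := by
    have h1 : ((2 * (D0 + 1 + (M + 1)) : ℕ) : ℝ) ≤ N := by
      exact_mod_cast (show 2 * (D0 + 1 + (M + 1)) ≤ N by omega)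
    push_cast at h1
    rw [he]
    linarith
  have hcho : ∀ j, ‖cho (N - D0) (t - β j)‖ ≤
      Real.exp (Real.pi * Y) * (2 * e / N) ^ (M + 1) := by
    intro j
    have hre : ((t : ℂ) - β j).re = t - (β j).re := by simp
    have him' : ((t : ℂ) - β j).im = -(β j).im := by simp
    have h1 := hj₁ j (Finset.mem_univ j)
    have h2 := hspread j₁ j
    have h20 : (β j₁).re - (β j).re ≤ N - (2 * ((D0 : ℝ) + 1 + e) + 2 * e) := by
      refine h2.trans ?_
      rw [he]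
      push_cast
      have : (0 : ℝ) ≤ (r : ℝ) ^ 2 := by positivity
      have : (0 : ℝ) ≤ (L : ℝ) := Nat.cast_nonneg L
      linarith
    have hD00 : (0 : ℝ) ≤ D0 := Nat.cast_nonneg _
    have h3 := SZ.cho_le' (t - β j) (N - D0) e he0
      (by rw [hre]; linarith) (by rw [hre, hkcast]; linarith)
    refine h3.trans ?_
    rw [him', abs_neg, hkcast]
    have h6 : 0 ≤ e / ((N : ℝ) - D0 - 1 - e) := by
      apply div_nonneg he0.le
      have : 0 < (N : ℝ) / 2 := by positivity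
      linarith
    have h4 : (e / ((N : ℝ) - D0 - 1 - e)) ^ e ≤ (2 * e / N) ^ (M + 1) := by
      have h5 : e / ((N : ℝ) - D0 - 1 - e) ≤ 2 * e / N := by
        have h51 : e / ((N : ℝ) - D0 - 1 - e) ≤ e / ((N : ℝ) / 2) := by
          apply div_le_div_of_nonneg_left he0.le (by positivity) hhalf
        have h52 : e / ((N : ℝ) / 2) = 2 * e / N := by field_simp
        linarith
      calc (e / ((N : ℝ) - D0 - 1 - e)) ^ e ≤ (2 * e / N) ^ e := Real.rpow_le_rpow h6 h5 he0.le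
        _ = (2 * e / N) ^ (M + 1) := by
          have : e = ((M + 1 : ℕ) : ℝ) := by rw [he]; push_cast; rfl
          conv_lhs => rw [show (2 * e / N) ^ e = (2 * e / N) ^ (((M + 1 : ℕ) : ℝ)) by rw [← this]]
          rw [Real.rpow_natCast]
    apply mul_le_mul _ h4 (Real.rpow_nonneg h6 _) (by positivity)
    exact Real.exp_le_exp.2 (mul_le_mul_of_nonneg_left (him j) Real.pi_pos.le)
  refine CO.core (N := N) (k := N - D0) β P hPm hP0 hP1 (fun j => (hnr j).1) hJ (by omega) t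
    (2 * A * N) (Real.exp (Real.pi * Y) * (2 * e / N) ^ (M + 1)) (by nlinarith) hB hcho ?_
  have h1 : 2 ^ r * ((2 * A * (N : ℝ)) ^ (r ^ r) * (((r + 1) * (2 * A * N)) ^ (r ^ r)) ^ (2 ^ r) *
      (Real.exp (Real.pi * Y) * (2 * e / N) ^ (M + 1))) = K * (N : ℝ) ^ M / N ^ (M + 1) := by
    rw [hK, ← pow_mul, show ((r : ℝ) + 1) * (2 * A * N) = ((r : ℝ) + 1) * (2 * A) * N by ring,
      mul_pow (2 * A) (N : ℝ), mul_pow (((r : ℝ) + 1) * (2 * A)) (N : ℝ), div_pow, hM, pow_add (N : ℝ)]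
    ring
  rw [h1, pow_succ]
  have h2 : (0 : ℝ) < (N : ℝ) ^ M := by positivity
  rw [div_lt_one (by positivity), mul_comm]
  exact mul_lt_mul_of_pos_left hKN h2

end Pool.Agent.K6.H50.FN
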