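import Mathlib

/-!
# Fano subvarieties of small codimension: the Koszul sum

Helper file for `Pool/Agent/Results/MP_9a3fdb_ag/FanoIndex.lean`.
-/

set_option autoImplicit false

open Finset

namespace Pool.Agent.K6.H50.Fano

/-- `χ(ℙ^N, O(x)) = (x + 1) ... (x + N) / N!`. -/
noncomputable def bin (N : ℕ) (x : ℂ) : ℂ := (∏ j ∈ Finset.range N, (x + j + 1)) / N.factorial

theorem bin_mul (N : ℕ) (y : ℂ) : y * bin N y = (N + 1) * bin (N + 1) (y - 1) := by
  unfold bin
  rw [Finset.prod_range_succ', Nat.factorial_succ]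
  have h : (N.factorial : ℂ) ≠ 0 := by exact_mod_cast Nat.factorial_ne_zero N
  have h2 : ((N : ℂ) + 1) ≠ 0 := by exact_mod_cast Nat.succ_ne_zero N
  have e : ∏ k ∈ Finset.range N, (y - 1 + ((k + 1 : ℕ) : ℂ) + 1) = ∏ j ∈ Finset.range N, (y + j + 1) := by
    refine Finset.prod_congr rfl fun k _ => ?_
    push_cast; ring
  rw [e]
  push_cast
  field_simp
  ring

theorem bin_add (N : ℕ) (y : ℂ) : (y + N + 1) * bin N y = (N + 1) * bin (N + 1) y := by
  unfold bin
  rw [Finset.prod_range_succ, Nat.factorial_succ]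
  have h : (N.factorial : ℂ) ≠ 0 := by exact_mod_cast Nat.factorial_ne_zero N
  have h2 : ((N : ℂ) + 1) ≠ 0 := by exact_mod_cast Nat.succ_ne_zero N
  push_cast
  field_simp

theorem bin_sub (N : ℕ) (y : ℂ) : bin N y = bin (N + 1) y - bin (N + 1) (y - 1) := by
  have h1 := bin_mul N y
  have h2 := bin_add N y
  have h3 : ((N : ℂ) + 1) ≠ 0 := by exact_mod_cast Nat.succ_ne_zero N
  have h4 : ((N : ℂ) + 1) * (bin N y) = (N + 1) * (bin (N + 1) y - bin (N + 1) (y - 1)) := by
    linear_combination h2 - h1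
  exact mul_left_cancel₀ h3 h4

theorem bin_natCast (N n : ℕ) : bin N n = ((N + n).choose N : ℂ) := by
  induction N with
  | zero => simp [bin]
  | succ N ih =>
    have h := bin_add N n
    rw [ih] at h
    have h3 : ((N : ℂ) + 1) ≠ 0 := by exact_mod_cast Nat.succ_ne_zero N
    refine mul_left_cancel₀ h3 ?_
    rw [← h]
    have h5 := Nat.add_one_mul_choose_eq (N + n) N
    have h6 : ((N + n + 1 : ℕ) : ℂ) * ((N + n).choose N : ℂ) =
        ((N + n + 1).choose (N + 1) : ℂ) * ((N + 1 : ℕ) : ℂ) := by exact_mod_cast h5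
    rw [show N + 1 + n = N + n + 1 by ring]
    push_cast at h6 ⊢
    linear_combination h6

/-- the zeros of the binomial coefficient -/
theorem bin_eq_zero {N : ℕ} {x : ℂ} : bin N x = 0 ↔ ∃ j < N, x = -((j : ℂ) + 1) := by
  unfold bin
  rw [div_eq_zero_iff, or_iff_left (by exact_mod_cast Nat.factorial_ne_zero N),
    Finset.prod_eq_zero_iff]
  constructor
  · rintro ⟨j, hj, h⟩
    exact ⟨j, Finset.mem_range.1 hj, by linear_combination h⟩
  · rintro ⟨j, hj, h⟩
    exact ⟨j, Finset.mem_range.2 hj, by rw [h]; ring⟩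

/-- elimination: the functions `t ↦ χ(ℙ^N, O(t - τ))` are independent on consecutive integers -/
theorem elim (T : Finset ℂ) : ∀ (N : ℕ) (b : ℂ → ℂ) (s t : ℂ), s ∉ T → T.card ≤ N →
    (∀ m : ℕ, m ≤ T.card →
      b s * bin N (t - m - s) + ∑ τ ∈ T, b τ * bin N (t - m - τ) = 0) →
    b s * bin (N - T.card) (t - s) = 0 := by
  classical
  induction T using Finset.induction_on with
  | empty =>
    intro N b s t _ _ h
    have := h 0 le_rfl
    simpa using this
  | insert τ0 T hτ ih =>
    intro N b s t hs hN h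
    rw [Finset.card_insert_of_notMem hτ] at hN h ⊢
    obtain ⟨N, rfl⟩ : ∃ M, N = M + 1 := ⟨N - 1, by omega⟩
    have hs' : s ∉ T := fun h' => hs (Finset.mem_insert_of_mem h')
    have hst : s ≠ τ0 := fun h' => hs (h' ▸ Finset.mem_insert_self _ _)
    have key : ∀ m : ℕ, m ≤ T.card →
        (b s * (s - τ0)) * bin N (t - m - s) +
          ∑ τ ∈ T, (b τ * (τ - τ0)) * bin N (t - m - τ) = 0 := by
      intro m hm
      have h1 := h m (by omega)
      have h2 := h (m + 1) (by omega)
      have term : ∀ x : ℂ, (b x * (x - τ0)) * bin N (t - m - x) =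
          (t - m - τ0) * (b x * bin (N + 1) (t - m - x) -
            b x * bin (N + 1) (t - ((m + 1 : ℕ) : ℂ) - x)) -
          (N + 1) * (b x * bin (N + 1) (t - ((m + 1 : ℕ) : ℂ) - x)) := by
        intro x
        have e1 := bin_mul N (t - m - x)
        have e2 := bin_sub N (t - m - x)
        have e3 : t - (m : ℂ) - x - 1 = t - ((m + 1 : ℕ) : ℂ) - x := by push_cast; ring
        rw [e3] at e1 e2
        linear_combination (t - m - τ0) * b x * e2 - b x * e1
      have hins : ∀ (m' : ℕ), b s * bin (N + 1) (t - m' - s) +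
          ∑ τ ∈ insert τ0 T, b τ * bin (N + 1) (t - m' - τ) =
          b s * bin (N + 1) (t - m' - s) + (b τ0 * bin (N + 1) (t - m' - τ0) +
          ∑ τ ∈ T, b τ * bin (N + 1) (t - m' - τ)) := by
        intro m'
        rw [Finset.sum_insert hτ]
      rw [hins] at h1 h2
      have h0 : (b τ0 * (τ0 - τ0)) * bin N (t - m - τ0) = 0 := by ring
      have hsum : ∑ τ ∈ T, (b τ * (τ - τ0)) * bin N (t - m - τ) =
          (t - m - τ0) * (∑ τ ∈ T, b τ * bin (N + 1) (t - m - τ) -
            ∑ τ ∈ T, b τ * bin (N + 1) (t - ((m + 1 : ℕ) : ℂ) - τ)) -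
          (N + 1) * ∑ τ ∈ T, b τ * bin (N + 1) (t - ((m + 1 : ℕ) : ℂ) - τ) := by
        rw [Finset.mul_sum, ← Finset.sum_sub_distrib, Finset.mul_sum, ← Finset.sum_sub_distrib]
        exact Finset.sum_congr rfl fun x _ => term x
      rw [hsum, term s]
      rw [term τ0] at h0
      linear_combination (t - m - τ0) * (h1 - h2) - (N + 1) * h2 - h0
    have h4 := ih N (fun x => b x * (x - τ0)) s t hs' (by omega) key
    have h5 : (s - τ0) ≠ 0 := sub_ne_zero.2 hst
    have h6 : (s - τ0) * (b s * bin (N - T.card) (t - s)) = 0 := by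
      linear_combination h4
    rw [show N + 1 - (T.card + 1) = N - T.card by omega]
    exact (mul_eq_zero.1 h6).resolve_left h5

/-- the Koszul sum -/
noncomputable def kos (N : ℕ) {r : ℕ} (β : Fin r → ℂ) (x : ℂ) : ℂ :=
  ∑ S : Finset (Fin r), (-1) ^ S.card * bin N (x - ∑ j ∈ S, β j)

/-- the proper nonempty subsets -/
def proper (r : ℕ) : Finset (Finset (Fin r)) :=
  (univ.erase ∅).erase univ

theorem card_proper {r : ℕ} (hr : 1 ≤ r) : (proper r).card + 2 = 2 ^ r := by
  unfold proper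
  have hne : (univ : Finset (Fin r)) ≠ ∅ := by
    have : Nonempty (Fin r) := ⟨⟨0, hr⟩⟩
    exact Finset.univ_nonempty.ne_empty
  have h1 : (univ : Finset (Fin r)) ∈ (univ.erase ∅ : Finset (Finset (Fin r))) :=
    Finset.mem_erase.2 ⟨hne, Finset.mem_univ _⟩
  rw [Finset.card_erase_of_mem h1, Finset.card_erase_of_mem (Finset.mem_univ _),
    Finset.card_univ, Fintype.card_finset, Fintype.card_fin]
  have : 2 ^ 1 ≤ 2 ^ r := Nat.pow_le_pow_right (by norm_num) hr
  omega

theorem sum_split {r : ℕ} (hr : 1 ≤ r) (f : Finset (Fin r) → ℂ) :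
    ∑ S : Finset (Fin r), f S = f ∅ + f univ + ∑ S ∈ proper r, f S := by
  have hne : (univ : Finset (Fin r)) ≠ ∅ := by
    have : Nonempty (Fin r) := ⟨⟨0, hr⟩⟩
    exact Finset.univ_nonempty.ne_empty
  have h1 : (univ : Finset (Fin r)) ∈ (univ.erase ∅ : Finset (Finset (Fin r))) :=
    Finset.mem_erase.2 ⟨hne, Finset.mem_univ _⟩
  unfold proper
  rw [← Finset.add_sum_erase _ _ (Finset.mem_univ ∅), ← Finset.add_sum_erase _ _ h1]
  ring

open Classical in
/-- the exponents -/
noncomputable def expo {r : ℕ} (β : Fin r → ℂ) : Finset ℂ :=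
  (proper r).image fun S => ∑ j ∈ S, β j

open Classical in
/-- the coefficients -/
noncomputable def coef {r : ℕ} (β : Fin r → ℂ) (s : ℂ) : ℂ :=
  ∑ S ∈ (proper r).filter (fun S => ∑ j ∈ S, β j = s), (-1 : ℂ) ^ S.card

theorem sum_coef {r : ℕ} (β : Fin r → ℂ) (g : ℂ → ℂ) :
    ∑ S ∈ proper r, (-1 : ℂ) ^ S.card * g (∑ j ∈ S, β j) = ∑ s ∈ expo β, coef β s * g s := by
  classical
  unfold expo coef
  rw [← Finset.sum_fiberwise_of_maps_to (s := proper r)
    (t := (proper r).image fun S => ∑ j ∈ S, β j) (g := fun S => ∑ j ∈ S, β j)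
    (fun S hS => Finset.mem_image_of_mem _ hS)]
  refine Finset.sum_congr rfl fun s _ => ?_
  rw [Finset.sum_mul]
  refine Finset.sum_congr rfl fun S hS => ?_
  rw [(Finset.mem_filter.1 hS).2]

/-- the part of the Koszul sum of the proper nonempty subsets -/
noncomputable def mid (N : ℕ) {r : ℕ} (β : Fin r → ℂ) (x : ℂ) : ℂ :=
  ∑ S ∈ proper r, (-1 : ℂ) ^ S.card * bin N (x - ∑ j ∈ S, β j)

theorem bin_reflect (N : ℕ) (x : ℂ) : bin N (-N - 1 - x) = (-1) ^ N * bin N x := by
  unfold bin
  rw [← Finset.prod_range_reflect, mul_div_assoc']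
  congr 1
  have h : ((-1 : ℂ)) ^ N = ∏ _j ∈ Finset.range N, (-1 : ℂ) := by
    rw [Finset.prod_const, Finset.card_range]
  rw [h, ← Finset.prod_mul_distrib]
  refine Finset.prod_congr rfl fun j hj => ?_
  have hj' := Finset.mem_range.1 hj
  rw [show N - 1 - j = N - (j + 1) by omega, Nat.cast_sub (by omega)]
  push_cast
  ring

theorem mem_proper {r : ℕ} {S : Finset (Fin r)} : S ∈ proper r ↔ S ≠ univ ∧ S ≠ ∅ := by
  unfold proper
  simp [Finset.mem_erase]

theorem mid_reflect {N r i : ℕ} (β : Fin r → ℂ) (hK : ∑ j, β j = N + 1 - i) (x : ℂ) :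
    mid N β (-i - x) = (-1) ^ (N + r) * mid N β x := by
  classical
  unfold mid
  rw [Finset.mul_sum]
  refine Finset.sum_nbij' (fun S => Sᶜ) (fun S => Sᶜ) ?_ ?_ ?_ ?_ ?_
  · intro S hS
    rw [mem_proper] at hS ⊢
    exact ⟨fun h => hS.2 ((Finset.compl_eq_univ_iff S).1 h),
      fun h => hS.1 ((Finset.compl_eq_empty_iff S).1 h)⟩
  · intro S hS
    rw [mem_proper] at hS ⊢
    exact ⟨fun h => hS.2 ((Finset.compl_eq_univ_iff S).1 h),
      fun h => hS.1 ((Finset.compl_eq_empty_iff S).1 h)⟩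
  · intro S _; exact compl_compl S
  · intro S _; exact compl_compl S
  · intro S _
    have h1 : ∑ j ∈ S, β j + ∑ j ∈ Sᶜ, β j = N + 1 - i := by
      rw [Finset.sum_add_sum_compl, hK]
    have h2 : -(i : ℂ) - x - ∑ j ∈ S, β j = -N - 1 - (x - ∑ j ∈ Sᶜ, β j) := by
      linear_combination -h1
    have h3 : S.card + Sᶜ.card = r := by
      rw [Finset.card_add_card_compl, Fintype.card_fin]
    have h4 : ((-1 : ℂ)) ^ S.card = (-1) ^ r * (-1) ^ Sᶜ.card := by
      have h5 : ((-1 : ℂ)) ^ r = (-1) ^ (S.card + Sᶜ.card) := by rw [h3]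
      rw [h5, pow_add, mul_assoc, ← mul_pow]
      norm_num
    rw [h2, bin_reflect, h4, pow_add]
    ring

theorem kos_split {N r : ℕ} (hr : 1 ≤ r) (β : Fin r → ℂ) (x : ℂ) :
    kos N β x = bin N x + (-1) ^ r * bin N (x - ∑ j, β j) + mid N β x := by
  unfold kos mid
  rw [sum_split hr]
  simp

/-- if the middle part vanishes on a window, the exponents which occur are natural -/
theorem window {N r : ℕ} (hr : 1 ≤ r) (hN : 2 ^ r ≤ N + 3) (β : Fin r → ℂ) (t : ℂ)
    (hw : ∀ l : ℕ, l + 3 ≤ 2 ^ r → mid N β (t - l) = 0) (s : ℂ) (hs : s ∈ expo β)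
    (hc : coef β s ≠ 0) : ∃ j : ℕ, s = t + j + 1 := by
  classical
  have hcard : (expo β).card + 2 ≤ 2 ^ r := by
    rw [← card_proper hr]
    exact Nat.add_le_add_right Finset.card_image_le 2
  have hpos : 1 ≤ (expo β).card := Finset.card_pos.2 ⟨s, hs⟩
  have hT : ((expo β).erase s).card + 1 = (expo β).card := Finset.card_erase_add_one hs
  have h := elim ((expo β).erase s) N (coef β) s t (Finset.notMem_erase _ _) (by omega) (by
    intro k hk
    have hsum : ∑ x ∈ expo β, coef β x * bin N (t - k - x) = 0 := by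
      rw [← sum_coef β (fun x => bin N (t - k - x))]
      exact hw k (by omega)
    rw [← Finset.add_sum_erase _ _ hs] at hsum
    exact hsum)
  obtain ⟨j, -, hj⟩ := bin_eq_zero.1 ((mul_eq_zero.1 h).resolve_left hc)
  exact ⟨j, by linear_combination -hj⟩

/-- the middle part of the Koszul sum vanishes at `0, ..., m - 1` -/
theorem mid_zero {N r i m : ℕ} (hr : 1 ≤ r) (hmi : m + i ≤ N + 1) (β : Fin r → ℂ)
    (hK : ∑ j, β j = N + 1 - i) (h0 : kos N β 0 = if i = 0 then 1 + (-1) ^ (N + r) else 1)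
    (hnor : ∀ t : ℕ, 1 ≤ t → t < m → kos N β t = bin N t) (t : ℕ) (ht : t < m) :
    mid N β t = 0 := by
  rcases Nat.eq_zero_or_pos t with h | h
  · subst h
    rw [Nat.cast_zero]
    rw [kos_split hr, hK, show bin N 0 = 1 by
      have := bin_natCast N 0; rw [Nat.cast_zero] at this; rw [this]; simp] at h0
    split_ifs at h0 with hi
    · subst hi
      have h1 := bin_reflect N 0
      rw [show bin N 0 = 1 by
        have := bin_natCast N 0; rw [Nat.cast_zero] at this; rw [this]; simp] at h1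
      rw [show (0 : ℂ) - ((N : ℂ) + 1 - ((0 : ℕ) : ℂ)) = -N - 1 - 0 by push_cast; ring, h1] at h0
      rw [pow_add] at h0
      linear_combination h0
    · have h2 : bin N ((0 : ℂ) - ((N : ℂ) + 1 - i)) = 0 := by
        rw [bin_eq_zero]
        refine ⟨N - i, by omega, ?_⟩
        rw [Nat.cast_sub (by omega)]; ring
      rw [h2] at h0
      linear_combination h0
  · have h1 := hnor t h ht
    rw [kos_split hr] at h1
    have h2 : bin N ((t : ℂ) - ∑ j, β j) = 0 := by
      rw [hK, bin_eq_zero]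
      refine ⟨N - i - t, by omega, ?_⟩
      have e : ((N - i - t : ℕ) : ℂ) = N - i - t := by
        rw [Nat.cast_sub (by omega), Nat.cast_sub (by omega)]
      rw [e]; ring
    rw [h2] at h1
    linear_combination h1

/-- the exponents which occur are natural numbers -/
theorem coef_natural {N r i m : ℕ} (hr : 1 ≤ r) (hm1 : 1 ≤ m)
    (hi : 2 ^ r ≤ i + 2 * m + 1) (hN : 2 ^ r ≤ N + 3) (hmi : m + i ≤ N + 1)
    (β : Fin r → ℂ) (hK : ∑ j, β j = N + 1 - i)
    (hkod : ∀ t : ℕ, 1 ≤ t → t < i → kos N β (-t) = 0)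
    (hA : ∀ t : ℕ, t < m → mid N β t = 0) (s : ℂ) (hs : s ∈ expo β) :
    coef β s = 0 ∨ ∃ n : ℕ, s = n := by
  by_cases hc : coef β s = 0
  · exact Or.inl hc
  right
  -- and at `-1, ..., -(i - 1)`
  have hB : ∀ t : ℕ, 1 ≤ t → t < i → mid N β (-t) = 0 := by
    intro t ht hti
    have h1 := hkod t ht hti
    rw [kos_split hr] at h1
    have h2 : bin N (-(t : ℂ) - ∑ j, β j) = 0 := by
      rw [hK, bin_eq_zero]
      refine ⟨N - i + t, by omega, ?_⟩
      have e : ((N - i + t : ℕ) : ℂ) = N - i + t := by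
        rw [Nat.cast_add, Nat.cast_sub (by omega)]
      rw [e]; ring
    have h3 : bin N (-(t : ℂ)) = 0 := by
      rw [bin_eq_zero]
      refine ⟨t - 1, by omega, ?_⟩
      rw [Nat.cast_sub ht]; push_cast; ring
    rw [h2, h3] at h1
    linear_combination h1
  have hC : ∀ t : ℕ, t < m → mid N β (-i - t) = 0 := by
    intro t ht
    rw [mid_reflect β hK, hA t ht, mul_zero]
  obtain ⟨j, hj⟩ := window (N := N) hr (by omega) β (m - 1) (fun k hk => by
      rcases lt_or_ge k m with h1 | h1
      · have := hA (m - 1 - k) (by omega)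
        rw [show ((m - 1 - k : ℕ) : ℂ) = (m : ℂ) - 1 - k by
          rw [Nat.cast_sub (by omega), Nat.cast_sub (by omega)]; push_cast; ring] at this
        exact this
      rcases lt_or_ge k (m + i - 1) with h2 | h2
      · have := hB (k + 1 - m) (by omega) (by omega)
        rw [show (-((k + 1 - m : ℕ) : ℂ)) = (m : ℂ) - 1 - k by
          rw [Nat.cast_sub (by omega)]; push_cast; ring] at this
        exact this
      · have := hC (k + 1 - m - i) (by omega)
        rw [show (-(i : ℂ) - ((k + 1 - m - i : ℕ) : ℂ)) = (m : ℂ) - 1 - k by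
          rw [Nat.cast_sub (by omega), Nat.cast_sub (by omega)]; push_cast; ring] at this
        exact this) s hs hc
  exact ⟨m + j, by push_cast; linear_combination hj⟩

/-- the same for varieties of general type -/
theorem coef_natural' {N r k : ℕ} (hr : 1 ≤ r) (hN : 2 ^ r ≤ N)
    (β : Fin r → ℂ) (hK : ∑ j, β j = N + 1 + k)
    (hnor : ∀ t : ℕ, k < t → t + 2 ≤ k + 2 ^ r → kos N β t = bin N t) (s : ℂ) (hs : s ∈ expo β) :
    coef β s = 0 ∨ ∃ n : ℕ, s = n := by
  by_cases hc : coef β s = 0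
  · exact Or.inl hc
  right
  have hcard : (expo β).card + 2 ≤ 2 ^ r := by
    rw [← card_proper hr]
    unfold expo
    exact Nat.add_le_add_right Finset.card_image_le 2
  have hpos : 1 ≤ (expo β).card := Finset.card_pos.2 ⟨s, hs⟩
  obtain ⟨j, hj⟩ := window (N := N) hr (by omega) β ((k + 2 ^ r - 2 : ℕ) : ℂ) (fun l hl => by
    have h1 := hnor (k + 2 ^ r - 2 - l) (by omega) (by omega)
    rw [kos_split hr] at h1
    have h2 : bin N (((k + 2 ^ r - 2 - l : ℕ) : ℂ) - ∑ j, β j) = 0 := by
      rw [hK, bin_eq_zero]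
      refine ⟨N + k - (k + 2 ^ r - 2 - l), by omega, ?_⟩
      rw [Nat.cast_sub (by omega : k + 2 ^ r - 2 - l ≤ N + k)]
      push_cast; ring
    rw [h2] at h1
    rw [← Nat.cast_sub (by omega)]
    linear_combination h1) s hs hc
  exact ⟨k + 2 ^ r - 2 + j + 1, by push_cast at hj ⊢; linear_combination hj⟩

/-- the exponential sum -/
theorem prod_exp {r : ℕ} (β : Fin r → ℂ) (z : ℂ) :
    ∏ j, (1 - Complex.exp (β j * z)) =
      ∑ S : Finset (Fin r), (-1 : ℂ) ^ S.card * Complex.exp ((∑ j ∈ S, β j) * z) := by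
  have h := Finset.prod_add (fun j : Fin r => -Complex.exp (β j * z)) (fun _ => (1 : ℂ)) univ
  have e : ∏ j : Fin r, (1 - Complex.exp (β j * z)) =
      ∏ j : Fin r, (-Complex.exp (β j * z) + 1) :=
    Finset.prod_congr rfl fun j _ => by ring
  rw [e, h, Finset.powerset_univ]
  refine Finset.sum_congr rfl fun S _ => ?_
  rw [Finset.prod_const_one, mul_one, Finset.sum_mul, Complex.exp_sum, Finset.prod_neg]

/-- if all exponents which occur are integers, all the roots are integers -/
theorem integral_of_periodic {r : ℕ} (β : Fin r → ℂ) (hβ : ∀ j, β j ≠ 0)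
    (h : ∀ z : ℂ, ∏ j, (1 - Complex.exp (β j * (z + 2 * Real.pi * Complex.I))) =
      ∏ j, (1 - Complex.exp (β j * z))) (j : Fin r) : ∃ n : ℤ, β j = n := by
  classical
  by_contra hj
  set A : Finset (Fin r) := univ.filter fun k => Complex.exp (β k * (2 * Real.pi * Complex.I)) = 1
    with hA
  have hjA : j ∉ A := by
    intro h1
    rw [hA, Finset.mem_filter] at h1
    obtain ⟨n, hn⟩ := Complex.exp_eq_one_iff.1 h1.2
    refine hj ⟨n, ?_⟩
    have hpi : (2 * Real.pi * Complex.I : ℂ) ≠ 0 := by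
      simp [Real.pi_ne_zero, Complex.I_ne_zero]
    exact mul_right_cancel₀ hpi hn
  have hsplit : ∀ z : ℂ, (∏ k ∈ A, (1 - Complex.exp (β k * z))) *
      (∏ k ∈ Aᶜ, (1 - Complex.exp (β k * (2 * Real.pi * Complex.I)) * Complex.exp (β k * z)) -
        ∏ k ∈ Aᶜ, (1 - Complex.exp (β k * z))) = 0 := by
    intro z
    have h1 := h z
    rw [← Finset.prod_mul_prod_compl A (fun k => 1 - Complex.exp (β k * z)),
      ← Finset.prod_mul_prod_compl A
        (fun k => 1 - Complex.exp (β k * (z + 2 * Real.pi * Complex.I)))] at h1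
    have h2 : ∏ k ∈ A, (1 - Complex.exp (β k * (z + 2 * Real.pi * Complex.I))) =
        ∏ k ∈ A, (1 - Complex.exp (β k * z)) := by
      refine Finset.prod_congr rfl fun k hk => ?_
      rw [mul_add, Complex.exp_add, (Finset.mem_filter.1 hk).2, mul_one]
    have h3 : ∏ k ∈ Aᶜ, (1 - Complex.exp (β k * (z + 2 * Real.pi * Complex.I))) =
        ∏ k ∈ Aᶜ, (1 - Complex.exp (β k * (2 * Real.pi * Complex.I)) * Complex.exp (β k * z)) := by
      refine Finset.prod_congr rfl fun k _ => ?_
      rw [mul_add, Complex.exp_add, mul_comm (Complex.exp (β k * z))]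
    rw [h2, h3] at h1
    linear_combination h1
  -- near zero the first product is not zero
  have hne : ∀ᶠ z in nhdsWithin (0 : ℂ) {0}ᶜ, ∏ k ∈ A, (1 - Complex.exp (β k * z)) ≠ 0 := by
    have h1 : ∀ k ∈ A, ∀ᶠ z in nhdsWithin (0 : ℂ) {0}ᶜ, 1 - Complex.exp (β k * z) ≠ 0 := by
      intro k _
      have hd : HasDerivAt (fun z : ℂ => 1 - Complex.exp (β k * z)) (-(Complex.exp (β k * 0) * (β k * 1))) 0 := by
        have := (((hasDerivAt_id (0 : ℂ)).const_mul (β k)).cexp).const_sub 1
        simpa using this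
      have hd' : -(Complex.exp (β k * 0) * (β k * 1)) ≠ 0 := by
        simp [hβ k]
      exact hd.eventually_ne hd'
    have h2 := (Finset.eventually_all A).2 h1
    filter_upwards [h2] with z hz
    exact Finset.prod_ne_zero_iff.2 hz
  have hzero : ∀ᶠ z in nhdsWithin (0 : ℂ) {0}ᶜ,
      ∏ k ∈ Aᶜ, (1 - Complex.exp (β k * (2 * Real.pi * Complex.I)) * Complex.exp (β k * z)) -
        ∏ k ∈ Aᶜ, (1 - Complex.exp (β k * z)) = 0 := by
    filter_upwards [hne] with z hz
    exact (mul_eq_zero.1 (hsplit z)).resolve_left hz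
  have hcont : Continuous fun z : ℂ =>
      ∏ k ∈ Aᶜ, (1 - Complex.exp (β k * (2 * Real.pi * Complex.I)) * Complex.exp (β k * z)) -
        ∏ k ∈ Aᶜ, (1 - Complex.exp (β k * z)) := by
    fun_prop
  have hlim := hcont.continuousAt (x := 0)
  have hlim2 : Filter.Tendsto (fun z : ℂ =>
      ∏ k ∈ Aᶜ, (1 - Complex.exp (β k * (2 * Real.pi * Complex.I)) * Complex.exp (β k * z)) -
        ∏ k ∈ Aᶜ, (1 - Complex.exp (β k * z))) (nhdsWithin (0 : ℂ) {0}ᶜ) (nhds 0) := by
    refine Filter.Tendsto.congr' ?_ tendsto_const_nhds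
    filter_upwards [hzero] with z hz
    exact hz.symm
  have heq := tendsto_nhds_unique (hlim.tendsto.mono_left nhdsWithin_le_nhds) hlim2
  have hj' : j ∈ Aᶜ := Finset.mem_compl.2 hjA
  have h5 : ∏ k ∈ Aᶜ, (1 - Complex.exp (β k * 0)) = 0 :=
    Finset.prod_eq_zero hj' (by simp)
  rw [h5, sub_zero] at heq
  simp only [mul_zero, Complex.exp_zero, mul_one] at heq
  obtain ⟨k, hk, hk0⟩ := Finset.prod_eq_zero_iff.1 heq
  apply Finset.mem_compl.1 hk
  rw [hA, Finset.mem_filter]
  exact ⟨Finset.mem_univ _, (sub_eq_zero.1 hk0).symm⟩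

/-- **Integrality of the Chern roots.** -/
theorem integral_of_coef {r : ℕ} (hr : 1 ≤ r) (β : Fin r → ℂ) (hβ : ∀ j, β j ≠ 0) (K : ℤ)
    (hK : ∑ j, β j = K) (hc : ∀ s ∈ expo β, coef β s = 0 ∨ ∃ n : ℕ, s = n) (j : Fin r) :
    ∃ n : ℤ, β j = n := by
  refine integral_of_periodic β hβ (fun z => ?_) j
  rw [prod_exp, prod_exp, sum_split hr, sum_split hr,
    sum_coef β (fun s => Complex.exp (s * (z + 2 * Real.pi * Complex.I))),
    sum_coef β (fun s => Complex.exp (s * z))]
  have hint : ∀ n : ℤ, Complex.exp ((n : ℂ) * (z + 2 * Real.pi * Complex.I)) =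
      Complex.exp ((n : ℂ) * z) := by
    intro n
    rw [mul_add, Complex.exp_add, Complex.exp_int_mul_two_pi_mul_I, mul_one]
  congr 1
  · congr 1
    · simp
    · rw [hK, hint]
  · refine Finset.sum_congr rfl fun s hs => ?_
    rcases hc s hs with h | ⟨n, rfl⟩
    · rw [h, zero_mul, zero_mul]
    · rw [show (n : ℂ) = ((n : ℤ) : ℂ) by push_cast; ring, hint]

theorem integral {N r i m : ℕ} (hr : 1 ≤ r) (hm1 : 1 ≤ m)
    (hi : 2 ^ r ≤ i + 2 * m + 1) (hN : 2 ^ r ≤ N + 3) (hmi : m + i ≤ N + 1)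
    (β : Fin r → ℂ) (hβ : ∀ j, β j ≠ 0) (hK : ∑ j, β j = N + 1 - i)
    (hkod : ∀ t : ℕ, 1 ≤ t → t < i → kos N β (-t) = 0)
    (hA : ∀ t : ℕ, t < m → mid N β t = 0) (j : Fin r) : ∃ n : ℤ, β j = n :=
  integral_of_coef hr β hβ ((N : ℤ) + 1 - i) (by rw [hK]; push_cast; ring)
    (fun s hs => coef_natural hr hm1 hi hN hmi β hK hkod hA s hs) j

theorem integral' {N r k : ℕ} (hr : 1 ≤ r) (hN : 2 ^ r ≤ N)
    (β : Fin r → ℂ) (hβ : ∀ j, β j ≠ 0) (hK : ∑ j, β j = N + 1 + k)
    (hnor : ∀ t : ℕ, k < t → t + 2 ≤ k + 2 ^ r → kos N β t = bin N t) (j : Fin r) :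
    ∃ n : ℤ, β j = n :=
  integral_of_coef hr β hβ ((N : ℤ) + 1 + k) (by rw [hK]; push_cast; ring)
    (fun s hs => coef_natural' hr hN β hK hnor s hs) j

/-- the elementary symmetric functions of the `β_j - 1` -/
noncomputable def twist {r : ℕ} (β : Fin r → ℂ) (k : ℕ) : ℂ :=
  ∑ S ∈ Finset.powersetCard k univ, ∏ j ∈ S, (β j - 1)

theorem twist_sum {r : ℕ} (β : Fin r → ℂ) (x : ℂ) :
    ∏ j, (1 + (β j - 1) * x) = ∑ k ∈ Finset.range (r + 1), x ^ k * twist β k := by
  rw [Finset.prod_one_add, Finset.sum_powerset, Finset.card_univ, Fintype.card_fin]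
  refine Finset.sum_congr rfl fun k _ => ?_
  unfold twist
  rw [Finset.mul_sum]
  refine Finset.sum_congr rfl fun S hS => ?_
  rw [Finset.prod_mul_distrib, Finset.prod_const, (Finset.mem_powersetCard.1 hS).2]
  ring

/-- integral roots are positive -/
theorem root_pos {r : ℕ} (β : Fin r → ℂ)
    (hpos : ∀ k ≤ r, ∃ c : ℝ, 0 ≤ c ∧ twist β k = c) (j : Fin r) (n : ℤ) (hn : β j = n) :
    1 ≤ n := by
  by_contra hlt
  push Not at hlt
  have hn0 : (n : ℝ) < 1 := by exact_mod_cast hlt
  set x : ℝ := 1 / (1 - n) with hx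
  have hx0 : 0 < x := by rw [hx]; exact one_div_pos.2 (by linarith)
  choose! c hc hc' using hpos
  have h1 := twist_sum β (x : ℂ)
  have h2 : ∏ j, (1 + (β j - 1) * (x : ℂ)) = 0 := by
    refine Finset.prod_eq_zero (Finset.mem_univ j) ?_
    rw [hn, hx]
    have h3 : ((1 : ℂ) - n) ≠ 0 := by
      intro h
      have : (1 : ℝ) - n = 0 := by exact_mod_cast h
      linarith
    push_cast
    field_simp
    ring
  rw [h2] at h1
  have h3 : (0 : ℝ) = ∑ k ∈ Finset.range (r + 1), x ^ k * c k := by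
    have : ((0 : ℝ) : ℂ) = ((∑ k ∈ Finset.range (r + 1), x ^ k * c k : ℝ) : ℂ) := by
      push_cast
      rw [h1]
      refine Finset.sum_congr rfl fun k hk => ?_
      rw [hc' k (by have := Finset.mem_range.1 hk; omega)]
    exact_mod_cast this
  have h4 : c 0 = 1 := by
    have h5 := hc' 0 (Nat.zero_le _)
    unfold twist at h5
    rw [Finset.powersetCard_zero, Finset.sum_singleton, Finset.prod_empty] at h5
    exact_mod_cast h5.symm
  have h5 : (1 : ℝ) ≤ ∑ k ∈ Finset.range (r + 1), x ^ k * c k := by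
    calc (1 : ℝ) = x ^ 0 * c 0 := by rw [h4]; ring
      _ ≤ _ := Finset.single_le_sum (f := fun k => x ^ k * c k)
          (fun k hk => mul_nonneg (pow_nonneg hx0.le _)
            (hc k (by have := Finset.mem_range.1 hk; omega)))
          (Finset.mem_range.2 (Nat.succ_pos r))
  linarith

/-- the Koszul sum at the smallest degree -/
theorem kos_min {N r i : ℕ} (a : Fin r → ℕ) (hsum : ∑ j, a j + i = N + 1)
    (a0 : ℕ) (h1 : 1 ≤ a0) (ha : ∀ j, a0 ≤ a j) :
    kos N (fun j => (a j : ℂ)) a0 + ((univ.filter fun j => a j = a0).card : ℂ) =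
      ((N + a0).choose N : ℂ) := by
  classical
  unfold kos
  -- the value of each term
  have hterm : ∀ S : Finset (Fin r), (-1 : ℂ) ^ S.card * bin N ((a0 : ℂ) - ∑ j ∈ S, (a j : ℂ)) =
      (if S = ∅ then ((N + a0).choose N : ℂ) else 0) -
        ∑ j, (if S = {j} then (if a j = a0 then 1 else 0) else 0) := by
    intro S
    rcases Finset.eq_empty_or_nonempty S with h | h
    · subst h
      rw [if_pos rfl, Finset.card_empty, pow_zero, one_mul, Finset.sum_empty, sub_zero,
        bin_natCast]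
      have : ∀ j : Fin r, (∅ : Finset (Fin r)) ≠ {j} := fun j h => by
        have := Finset.mem_singleton_self j
        rw [← h] at this
        exact absurd this (Finset.notMem_empty j)
      simp [this]
    · rw [if_neg h.ne_empty]
      by_cases h2 : ∃ j, S = {j}
      · obtain ⟨j, rfl⟩ := h2
        rw [Finset.card_singleton, Finset.sum_singleton]
        have e : ∑ k, (if ({j} : Finset (Fin r)) = {k} then (if a k = a0 then (1 : ℂ) else 0) else 0)
            = if a j = a0 then 1 else 0 := by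
          rw [Finset.sum_eq_single j]
          · rw [if_pos rfl]
          · intro k _ hk
            rw [if_neg]
            intro h3
            exact hk (Finset.singleton_injective h3).symm
          · intro h3; exact absurd (Finset.mem_univ j) h3
        rw [e]
        split_ifs with h3
        · rw [h3, sub_self]
          have := bin_natCast N 0
          rw [Nat.cast_zero] at this
          rw [this]; simp
        · have hlt : a0 < a j := lt_of_le_of_ne (ha j) (Ne.symm h3)
          have hle : a j ≤ N + 1 := by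
            have := Finset.single_le_sum (f := a) (fun _ _ => Nat.zero_le _) (Finset.mem_univ j)
            omega
          have hz : bin N ((a0 : ℂ) - (a j : ℂ)) = 0 := by
            rw [bin_eq_zero]
            refine ⟨a j - a0 - 1, by omega, ?_⟩
            rw [Nat.cast_sub (by omega), Nat.cast_sub (by omega)]
            push_cast; ring
          rw [hz]; ring
      · have e : ∑ k, (if S = {k} then (if a k = a0 then (1 : ℂ) else 0) else 0) = 0 := by
          refine Finset.sum_eq_zero fun k _ => ?_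
          rw [if_neg]
          intro h3
          exact h2 ⟨k, h3⟩
        rw [e]
        -- at least two elements
        obtain ⟨j, hj⟩ := h
        have h4 : ∃ k ∈ S, k ≠ j := by
          by_contra h5
          push Not at h5
          exact h2 ⟨j, Finset.eq_singleton_iff_unique_mem.2 ⟨hj, h5⟩⟩
        obtain ⟨k, hk, hkj⟩ := h4
        have h5 : a k + a j ≤ ∑ j ∈ S, a j := by
          have : ({k, j} : Finset (Fin r)) ⊆ S := by
            intro x hx
            rcases Finset.mem_insert.1 hx with h | h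
            · rw [h]; exact hk
            · rw [Finset.mem_singleton.1 h]; exact hj
          have h6 := Finset.sum_le_sum_of_subset (f := a) this
          rw [Finset.sum_pair hkj] at h6
          exact h6
        have h6 : ∑ j ∈ S, a j ≤ N + 1 := by
          have := Finset.sum_le_sum_of_subset (f := a) (Finset.subset_univ S)
          omega
        have h7 := ha k
        have h8 := ha j
        have hz : bin N ((a0 : ℂ) - ∑ j ∈ S, (a j : ℂ)) = 0 := by
          rw [bin_eq_zero, ← Nat.cast_sum]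
          refine ⟨∑ j ∈ S, a j - a0 - 1, by omega, ?_⟩
          rw [Nat.cast_sub (by omega), Nat.cast_sub (by omega)]
          push_cast; ring
        rw [hz]; ring
  rw [Finset.sum_congr rfl fun S _ => hterm S, Finset.sum_sub_distrib]
  rw [Finset.sum_ite_eq' univ ∅, if_pos (Finset.mem_univ _), Finset.sum_comm]
  have e2 : ∀ j : Fin r, ∑ S : Finset (Fin r),
      (if S = {j} then (if a j = a0 then (1 : ℂ) else 0) else 0) = if a j = a0 then 1 else 0 := by
    intro j
    rw [Finset.sum_eq_single ({j} : Finset (Fin r)), if_pos rfl]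
    · intro S _ hS
      rw [if_neg hS]
    · intro h; exact absurd (Finset.mem_univ _) h
  rw [Finset.sum_congr rfl fun j _ => e2 j, Finset.card_filter]
  push_cast
  ring

end Pool.Agent.K6.H50.Fano
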