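import Mathlib

/-!
# Nearly real roots from positive minors

If all minors of size `m` of the `m × (m + r)` Toeplitz matrix `(c_(j-i))` of a polynomial
`c_0 + ... + c_r z^r = Π (1 + β_j z)` are positive, then `|arg β_j| ≤ π (r - 1) / (m + r - 1)`
(Gantmacher-Krein, Schoenberg).
-/

set_option autoImplicit false

namespace Pool.Agent.K6.H50.NR

open Finset Matrix

/-- A relation between the columns of a matrix with positive maximal minors cannot be cut into as
many intervals of constant sign as the matrix has rows. -/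
theorem no_relation {m L : ℕ} (hm : 0 < m) (T : Fin L → Fin m → ℝ)
    (hT : ∀ f : Fin m → Fin L, StrictMono f → 0 < Matrix.det (Matrix.of fun b => T (f b)))
    (g : Fin L → Fin m) (hg : Monotone g) (hs : Function.Surjective g)
    (w : Fin L → ℝ) (hw : ∀ l, w l ≠ 0) (ε : Fin m → ℝ) (hsgn : ∀ l, w l = ε (g l) * |w l|)
    (h0 : ∀ i, ∑ l, w l * T l i = 0) : False := by
  classical
  set M : Fin m → Fin m → ℝ := fun b => ∑ l ∈ univ.filter (fun l => g l = b), |w l| • T l with hM
  have hdet : 0 < Matrix.det (Matrix.of M) := by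
    have h1 : Matrix.det (Matrix.of M) = Matrix.detRowAlternating.toMultilinearMap M := rfl
    rw [h1, hM, MultilinearMap.map_sum_finset]
    apply Finset.sum_pos
    · intro p hp
      rw [Fintype.mem_piFinset] at hp
      have hp' : ∀ b, g (p b) = b := fun b => (Finset.mem_filter.1 (hp b)).2
      rw [MultilinearMap.map_smul_univ]
      have h2 : 0 < ∏ i, |w (p i)| := Finset.prod_pos fun i _ => abs_pos.2 (hw _)
      have h3 : StrictMono p := by
        intro a b hab
        by_contra hcon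
        have := hg (not_lt.1 hcon)
        rw [hp', hp'] at this
        exact absurd hab (not_lt.2 this)
      exact smul_pos h2 (hT p h3)
    · refine ⟨fun b => (hs b).choose, ?_⟩
      rw [Fintype.mem_piFinset]
      intro b
      exact Finset.mem_filter.2 ⟨Finset.mem_univ _, (hs b).choose_spec⟩
  have hz : ε ᵥ* (Matrix.of M) = 0 := by
    ext i
    rw [Matrix.vecMul, dotProduct]
    simp only [Matrix.of_apply, hM, Finset.sum_apply, Pi.smul_apply, smul_eq_mul, Pi.zero_apply]
    rw [← h0 i]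
    rw [← Finset.sum_fiberwise (s := Finset.univ) (g := g) (f := fun l => w l * T l i)]
    refine Finset.sum_congr rfl fun b _ => ?_
    rw [Finset.mul_sum]
    refine Finset.sum_congr rfl fun l hl => ?_
    have hl' : g l = b := (Finset.mem_filter.1 hl).2
    have := hsgn l
    rw [hl'] at this
    rw [← mul_assoc, ← this]
  have hε : ε ≠ 0 := by
    intro h
    obtain ⟨l, hl⟩ := hs ⟨0, hm⟩
    have := hsgn l
    rw [h] at this
    simp at this
    exact hw l this
  have := (Matrix.exists_vecMul_eq_zero_iff (M := Matrix.of M)).1 ⟨ε, hε, hz⟩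
  exact hdet.ne' this

theorem sin_sign (x : ℝ) : Real.sin x = (-1) ^ (⌊x / Real.pi⌋) * Real.sin (x - ⌊x / Real.pi⌋ * Real.pi) := by
  rw [Real.sin_sub_int_mul_pi, ← mul_assoc, ← zpow_add₀ (by norm_num)]
  rw [← two_mul, _root_.zpow_mul]
  norm_num

theorem sin_pos' (x : ℝ) (h : ∀ n : ℤ, x / Real.pi ≠ n) :
    0 < Real.sin (x - ⌊x / Real.pi⌋ * Real.pi) := by
  apply Real.sin_pos_of_pos_of_lt_pi
  · have h1 : (⌊x / Real.pi⌋ : ℝ) < x / Real.pi := lt_of_le_of_ne (Int.floor_le _) (Ne.symm (h _))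
    rw [lt_div_iff₀ Real.pi_pos] at h1
    linarith
  · have h1 := Int.lt_floor_add_one (x / Real.pi)
    rw [div_lt_iff₀ Real.pi_pos] at h1
    linarith

/-- a small generic phase -/
theorem exists_phase (θ : ℝ) (L : ℕ) (δ : ℝ) (hδ : 0 < δ) :
    ∃ η : ℝ, 0 < η ∧ η < δ ∧ ∀ l < L, ∀ n : ℤ, (l * θ - η) / Real.pi ≠ n := by
  have h1 : (⋃ l ∈ Finset.range L, Set.range fun n : ℤ => (l : ℝ) * θ - n * Real.pi).Countable :=
    Set.Countable.biUnion (Finset.countable_toSet _) fun l _ => Set.countable_range _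
  have h2 : ¬ (Set.Ioo (0 : ℝ) δ).Countable := by
    intro h
    have := Cardinal.mk_Ioo_real hδ
    have h3 := (Cardinal.le_aleph0_iff_set_countable.2 h)
    rw [this] at h3
    exact absurd h3 (not_le.2 Cardinal.aleph0_lt_continuum)
  obtain ⟨η, hη, hη'⟩ : ∃ η ∈ Set.Ioo (0 : ℝ) δ,
      η ∉ (⋃ l ∈ Finset.range L, Set.range fun n : ℤ => (l : ℝ) * θ - n * Real.pi) := by
    by_contra hcon
    push Not at hcon
    exact h2 (h1.mono fun x hx => hcon x hx)
  refine ⟨η, hη.1, hη.2, fun l hl n h => hη' ?_⟩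
  simp only [Set.mem_iUnion]
  refine ⟨l, Finset.mem_range.2 hl, n, ?_⟩
  rw [div_eq_iff Real.pi_ne_zero] at h
  simp only
  linarith


theorem floor_step (x s : ℝ) (h0 : 0 ≤ s) (h1 : s ≤ 1) :
    ⌊x⌋ ≤ ⌊x + s⌋ ∧ ⌊x + s⌋ ≤ ⌊x⌋ + 1 := by
  refine ⟨Int.floor_le_floor (by linarith), ?_⟩
  rw [← Int.floor_add_one]
  exact Int.floor_le_floor (by linarith)

theorem toeplitz_sum {m r : ℕ} (c : ℕ → ℂ) (hc : ∀ k, r < k → c k = 0) (z : ℂ) (i : Fin m) :
    ∑ l : Fin (m + r), (if (i : ℕ) ≤ l then c (l - i) else 0) * z ^ (l : ℕ) =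
      z ^ (i : ℕ) * ∑ k ∈ range (r + 1), c k * z ^ k := by
  rw [Fin.sum_univ_eq_sum_range (fun l => (if (i : ℕ) ≤ l then c (l - i) else 0) * z ^ l)]
  have h1 : ∑ l ∈ range (m + r), (if (i : ℕ) ≤ l then c (l - i) else 0) * z ^ l =
      ∑ l ∈ Ico (i : ℕ) (m + r), c (l - i) * z ^ l := by
    rw [← Finset.sum_filter_add_sum_filter_not (range (m + r)) (fun l => (i : ℕ) ≤ l)]
    rw [Finset.sum_eq_zero (s := (range (m + r)).filter fun l => ¬ (i : ℕ) ≤ l), add_zero]
    · apply Finset.sum_congr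
      · ext l; simp [Finset.mem_Ico, and_comm]
      · intro l hl
        rw [if_pos (Finset.mem_Ico.1 hl).1]
    · intro l hl
      rw [if_neg (Finset.mem_filter.1 hl).2, zero_mul]
  rw [h1, Finset.sum_Ico_eq_sum_range, Finset.mul_sum]
  have h2 : range (r + 1) ⊆ range (m + r - i) := by
    intro k hk
    rw [Finset.mem_range] at hk ⊢
    have := i.2
    omega
  rw [← Finset.sum_subset h2]
  · refine Finset.sum_congr rfl fun k _ => ?_
    rw [Nat.add_sub_cancel_left, pow_add]
    ring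
  · intro k _ hk
    rw [Finset.mem_range, not_lt] at hk
    rw [Nat.add_sub_cancel_left, hc k (by omega), zero_mul]

theorem exists_hit (G : ℕ → ℕ) (h0 : G 0 = 0) (hstep : ∀ l, G (l + 1) ≤ G l + 1) (K : ℕ)
    (v : ℕ) (hv : v ≤ G K) : ∃ l ≤ K, G l = v := by
  classical
  have hex : ∃ l, v ≤ G l := ⟨K, hv⟩
  refine ⟨Nat.find hex, Nat.find_min' hex hv, ?_⟩
  have h1 := Nat.find_spec hex
  rcases Nat.eq_zero_or_pos (Nat.find hex) with h | h
  · rw [h] at h1 ⊢
    rw [h0] at h1 ⊢
    omega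
  · obtain ⟨l, hl⟩ : ∃ l, Nat.find hex = l + 1 := ⟨Nat.find hex - 1, by omega⟩
    have h2 := Nat.find_min hex (m := l) (by omega)
    have h3 := hstep l
    rw [hl] at h1 ⊢
    omega

theorem w_formula (β : ℂ) (η : ℝ) (l : ℕ) :
    (Complex.exp (η * Complex.I) * (-1 / β) ^ l).im =
      (-1) ^ (l + 1) * (‖β‖ ^ l)⁻¹ * Real.sin (l * Complex.arg β - η) := by
  have h1 : β = ‖β‖ * Complex.exp (Complex.arg β * Complex.I) := (Complex.norm_mul_exp_arg_mul_I β).symm
  have h2 : Complex.exp (η * Complex.I) * (-1 / β) ^ l =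
      (((-1) ^ l * (‖β‖ ^ l)⁻¹ : ℝ) : ℂ) * Complex.exp (((η - l * Complex.arg β : ℝ) : ℂ) * Complex.I) := by
    have h3 : (-1 / β) ^ l = (-1) ^ l * ((‖β‖ : ℂ) ^ l)⁻¹ *
        Complex.exp (-(l * Complex.arg β * Complex.I)) := by
      conv_lhs => rw [h1]
      rw [div_pow, mul_pow, ← Complex.exp_nat_mul, Complex.exp_neg]
      rw [show (l : ℂ) * (Complex.arg β * Complex.I) = l * Complex.arg β * Complex.I by ring]
      field_simp
    rw [h3]
    push_cast
    rw [show (η - l * Complex.arg β) * Complex.I = η * Complex.I + -(l * Complex.arg β * Complex.I) by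
      ring, Complex.exp_add]
    ring
  rw [h2, Complex.im_ofReal_mul, Complex.exp_ofReal_mul_I_im]
  rw [show l * Complex.arg β - η = -(η - l * Complex.arg β) by ring, Real.sin_neg]
  ring


theorem arg_bound {m r : ℕ} (hm : 0 < m) (hr : 1 ≤ r) (c : ℕ → ℝ) (hc : ∀ k, r < k → c k = 0)
    (hpos : ∀ f : Fin m → Fin (m + r), StrictMono f →
      0 < Matrix.det (Matrix.of fun (b : Fin m) (i : Fin m) =>
        if (i : ℕ) ≤ f b then c ((f b : ℕ) - i) else 0))
    (β : ℂ) (hβ : β ≠ 0) (hroot : ∑ k ∈ range (r + 1), (c k : ℂ) * (-1 / β) ^ k = 0)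
    (h0 : 0 ≤ Complex.arg β) :
    ((m : ℝ) + r - 1) * Complex.arg β ≤ Real.pi * (r - 1) := by
  classical
  by_contra hcon
  push Not at hcon
  set θ := Complex.arg β with hθ
  have hθπ : θ ≤ Real.pi := Complex.arg_le_pi β
  have hπ := Real.pi_pos
  obtain ⟨η, hη0, hη1, hη⟩ := exists_phase θ (m + r)
    (min (((m : ℝ) + r - 1) * θ - Real.pi * (r - 1)) Real.pi) (lt_min (by linarith) hπ)
  have hηa : η < ((m : ℝ) + r - 1) * θ - Real.pi * (r - 1) := lt_of_lt_of_le hη1 (min_le_left _ _)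
  have hηb : η < Real.pi := lt_of_lt_of_le hη1 (min_le_right _ _)
  -- the nodes
  set n : ℕ → ℤ := fun l => ⌊((l : ℝ) * θ - η) / Real.pi⌋ with hn
  have hn0 : n 0 = -1 := by
    rw [hn]
    simp only [Nat.cast_zero, zero_mul, zero_sub]
    rw [Int.floor_eq_iff]
    push_cast
    constructor
    · rw [le_div_iff₀ hπ]; linarith
    · rw [neg_add_cancel, div_lt_iff₀ hπ]; linarith
  have hstep : ∀ l, n l ≤ n (l + 1) ∧ n (l + 1) ≤ n l + 1 := by
    intro l
    have h1 := floor_step (((l : ℝ) * θ - η) / Real.pi) (θ / Real.pi) (by positivity)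
      ((div_le_one hπ).2 hθπ)
    have h2 : ((l : ℝ) * θ - η) / Real.pi + θ / Real.pi = (((l + 1 : ℕ) : ℝ) * θ - η) / Real.pi := by
      push_cast
      ring
    rw [h2] at h1
    exact h1
  have hlast : (r : ℤ) - 1 ≤ n (m + r - 1) := by
    rw [hn]
    simp only
    rw [Int.le_floor]
    have h1 : ((m + r - 1 : ℕ) : ℝ) = (m : ℝ) + r - 1 := by
      rw [Nat.cast_sub (by omega)]
      push_cast
      ring
    rw [h1, le_div_iff₀ hπ]
    push_cast
    nlinarith
  -- the number of the sign changes before `l`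
  set b : ℕ → ℤ := fun l => l - n l - 1 with hb
  have hb0 : b 0 = 0 := by simp [hb, hn0]
  have hbstep : ∀ l, b l ≤ b (l + 1) ∧ b (l + 1) ≤ b l + 1 := by
    intro l
    have := hstep l
    simp only [hb]
    push_cast
    omega
  have hbmono : Monotone b := monotone_nat_of_le_succ fun l => (hbstep l).1
  have hbnn : ∀ l, 0 ≤ b l := fun l => by
    rw [← hb0]
    exact hbmono (Nat.zero_le l)
  have hblast : b (m + r - 1) ≤ m - 1 := by
    simp only [hb]
    have h1 : ((m + r - 1 : ℕ) : ℤ) = (m : ℤ) + r - 1 := by omega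
    rw [h1]
    omega
  -- the blocks
  set G : ℕ → ℕ := fun l => max (b l).toNat (l - r) with hG
  have hG0 : G 0 = 0 := by simp [hG, hb0]
  have hGstep : ∀ l, G (l + 1) ≤ G l + 1 := by
    intro l
    have := hbstep l
    have := hbnn l
    simp only [hG]
    omega
  have hGmono : Monotone G := by
    intro l l' hll
    have := hbmono hll
    simp only [hG]
    omega
  have hGlast : G (m + r - 1) = m - 1 := by
    simp only [hG]
    have := hbnn (m + r - 1)
    omega
  have hGlt : ∀ l : Fin (m + r), G l < m := by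
    intro l
    have h1 := hGmono (show (l : ℕ) ≤ m + r - 1 by omega)
    omega
  have hGsame : ∀ l l', l < l' → G l = G l' → b l = b l' := by
    intro l l' hll hGG
    have h1 := hbmono hll.le
    have := hbnn l
    have := hbnn l'
    simp only [hG] at hGG
    omega
  have hGsame' : ∀ l l', G l = G l' → b l = b l' := by
    intro l l' h
    rcases lt_trichotomy l l' with h1 | h1 | h1
    · exact hGsame l l' h1 h
    · rw [h1]
    · exact (hGsame l' l h1 h.symm).symm
  set g : Fin (m + r) → Fin m := fun l => ⟨G l, hGlt l⟩ with hg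
  have hgm : Monotone g := fun l l' h => by
    rw [Fin.le_def]
    exact hGmono h
  have hgs : Function.Surjective g := by
    intro v
    obtain ⟨l, hl, hlv⟩ := exists_hit G hG0 hGstep (m + r - 1) v (by rw [hGlast]; omega)
    exact ⟨⟨l, by omega⟩, Fin.ext hlv⟩
  -- the relation
  set w : Fin (m + r) → ℝ := fun l =>
    (Complex.exp (η * Complex.I) * (-1 / β) ^ (l : ℕ)).im with hw
  have hρ : 0 < ‖β‖ := norm_pos_iff.2 hβ
  have hwf : ∀ l : Fin (m + r), ∃ s : ℝ, 0 < s ∧ w l = (-1) ^ (b l) * s := by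
    intro l
    have h1 := w_formula β η l
    have h2 := sin_sign ((l : ℕ) * θ - η)
    have h3 := sin_pos' ((l : ℕ) * θ - η) (hη l l.2)
    refine ⟨(‖β‖ ^ (l : ℕ))⁻¹ * Real.sin ((l : ℕ) * θ - η -
      ⌊((l : ℕ) * θ - η) / Real.pi⌋ * Real.pi), by positivity, ?_⟩
    simp only [hw]
    rw [h1, h2]
    have h4 : (-1 : ℝ) ^ (b l) = (-1) ^ ((l : ℕ) + 1) * (-1) ^ (n l) := by
      simp only [hb]
      rw [show ((l : ℕ) : ℤ) - n l - 1 = (((l : ℕ) + 1 : ℕ) : ℤ) + n l + 2 * (-n l - 1) by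
        push_cast; ring]
      rw [zpow_add₀ (by norm_num), zpow_add₀ (by norm_num), _root_.zpow_mul, zpow_natCast]
      norm_num
    rw [h4]
    simp only [hn]
    ring
  have hsq : ∀ k : ℤ, |((-1 : ℝ) ^ k)| = 1 := by
    intro k
    rw [abs_zpow]
    simp
  have hne : ∀ k : ℤ, ((-1 : ℝ) ^ k) ≠ 0 := fun k => zpow_ne_zero _ (by norm_num)
  choose pre hpre using hgs
  refine no_relation hm (fun l i => if (i : ℕ) ≤ l then c ((l : ℕ) - i) else 0) hpos g hgm
    (fun v => ⟨pre v, hpre v⟩) w ?_ (fun v => (-1) ^ (b (pre v))) ?_ ?_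
  · intro l
    obtain ⟨s, hs, hws⟩ := hwf l
    rw [hws]
    exact mul_ne_zero (hne _) hs.ne'
  · intro l
    obtain ⟨s, hs, hws⟩ := hwf l
    have h1 : b (pre (g l)) = b l := by
      apply hGsame'
      have := hpre (g l)
      simp only [hg] at this
      exact congrArg Fin.val this
    rw [h1, hws, abs_mul, hsq, abs_of_pos hs]
    ring
  · intro i
    have h1 := toeplitz_sum (m := m) (r := r) (fun k => (c k : ℂ)) (fun k hk => by rw [hc k hk]; simp)
      (-1 / β) i
    rw [hroot, mul_zero] at h1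
    have h2 : (Complex.exp (η * Complex.I) * ∑ l : Fin (m + r),
        (if (i : ℕ) ≤ l then (c ((l : ℕ) - i) : ℂ) else 0) * (-1 / β) ^ (l : ℕ)).im = 0 := by
      rw [h1]
      simp
    rw [Finset.mul_sum, Complex.im_sum] at h2
    refine Eq.trans (Finset.sum_congr rfl fun l _ => ?_) h2
    simp only [hw]
    split_ifs with h3
    · rw [show Complex.exp (η * Complex.I) * ((c ((l : ℕ) - i) : ℂ) * (-1 / β) ^ (l : ℕ)) =
        ((c ((l : ℕ) - i) : ℝ) : ℂ) * (Complex.exp (η * Complex.I) * (-1 / β) ^ (l : ℕ)) by ring]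
      rw [Complex.im_ofReal_mul]
      ring
    · simp

/-- The determinant `det (c_(λ_i + j - i))`, the Schur polynomial of the partition `λ` in the Chern
classes `c_i`. -/
noncomputable def schur (c : Polynomial ℤ) {m : ℕ} (lam : Fin m → ℕ) : ℤ :=
  Matrix.det (Matrix.of fun i j : Fin m =>
    if (i : ℕ) ≤ lam i + j then c.coeff (lam i + j - i) else 0)

theorem strictMono_gap {m L : ℕ} (f : Fin m → Fin L) (hf : StrictMono f) :
    ∀ (k : ℕ) (a b : Fin m), (b : ℕ) = a + k → (f a : ℕ) + k ≤ f b := by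
  intro k
  induction k with
  | zero =>
    intro a b h
    have : b = a := Fin.ext (by omega)
    rw [this]
    omega
  | succ k ih =>
    intro a b h
    have h1 := ih a ⟨a + k, by omega⟩ rfl
    have h2 : f ⟨(a : ℕ) + k, by omega⟩ < f b := hf (Fin.lt_def.2 (by simp; omega))
    rw [Fin.lt_def] at h2
    omega

theorem minor_pos {m r n : ℕ} (hmr : m * r ≤ n) (c : Polynomial ℤ)
    (hpos : ∀ (m : ℕ) (lam : Fin m → ℕ), Antitone lam → (∀ i, lam i ≤ r) → ∑ i, lam i ≤ n →
      0 < schur c lam)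
    (f : Fin m → Fin (m + r)) (hf : StrictMono f) :
    0 < Matrix.det (Matrix.of fun (b : Fin m) (i : Fin m) =>
        if (i : ℕ) ≤ f b then ((c.coeff ((f b : ℕ) - i) : ℤ) : ℝ) else 0) := by
  have hge : ∀ b : Fin m, (b : ℕ) ≤ f b := by
    intro b
    have := strictMono_gap f hf b ⟨0, by have := b.2; omega⟩ b (by simp)
    omega
  have hle : ∀ b : Fin m, (f b : ℕ) ≤ b + r := by
    intro b
    have h1 := strictMono_gap f hf (m - 1 - b) b ⟨m - 1, by have := b.2; omega⟩
      (by simp; have := b.2; omega)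
    have h2 := (f ⟨m - 1, by have := b.2; omega⟩).2
    have := b.2
    omega
  set lam : Fin m → ℕ := fun b => (f b.rev : ℕ) - b.rev with hlam
  have hanti : Antitone lam := by
    intro a b hab
    simp only [hlam]
    have hr : b.rev ≤ a.rev := Fin.rev_le_rev.2 hab
    have h1 := strictMono_gap f hf ((a.rev : ℕ) - b.rev) b.rev a.rev
      (by rw [Fin.le_def] at hr; omega)
    have := hge a.rev
    have := hge b.rev
    rw [Fin.le_def] at hr
    omega
  have hlr : ∀ b, lam b ≤ r := by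
    intro b
    simp only [hlam]
    have := hle b.rev
    omega
  have hsum : ∑ i, lam i ≤ n := by
    calc ∑ i, lam i ≤ ∑ _i : Fin m, r := Finset.sum_le_sum fun i _ => hlr i
      _ = m * r := by simp
      _ ≤ n := hmr
  have h1 := hpos m lam hanti hlr hsum
  have h2 : ((schur c lam : ℤ) : ℝ) = Matrix.det (Matrix.of fun (b : Fin m) (i : Fin m) =>
        if (i : ℕ) ≤ f b then ((c.coeff ((f b : ℕ) - i) : ℤ) : ℝ) else 0) := by
    rw [← Matrix.det_submatrix_equiv_self Fin.revPerm (Matrix.of fun (b : Fin m) (i : Fin m) =>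
        if (i : ℕ) ≤ f b then ((c.coeff ((f b : ℕ) - i) : ℤ) : ℝ) else 0)]
    unfold schur
    rw [← eq_intCast (Int.castRingHom ℝ), RingHom.map_det]
    congr 1
    ext i j
    simp only [RingHom.mapMatrix_apply, Matrix.map_apply, Matrix.of_apply, Matrix.submatrix_apply,
      Fin.revPerm_apply, eq_intCast]
    have e1 : ((i.rev : Fin m) : ℕ) = m - (i + 1) := Fin.val_rev i
    have e2 : ((j.rev : Fin m) : ℕ) = m - (j + 1) := Fin.val_rev j
    have h3 := hge i.rev
    have h4 : lam i = (f i.rev : ℕ) - i.rev := rfl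
    have hi := i.2
    have hj := j.2
    by_cases hc : (i : ℕ) ≤ lam i + j
    · rw [if_pos hc, if_pos (by omega)]
      congr 2
      omega
    · rw [if_neg hc, if_neg (by omega)]
      simp
  rw [← h2]
  exact_mod_cast h1

theorem coeff_high {r : ℕ} (c : Polynomial ℤ) (β : Fin r → ℂ)
    (hc : c.map (Int.castRingHom ℂ) = ∏ j, (1 + Polynomial.C (β j) * Polynomial.X)) :
    c.natDegree ≤ r := by
  have h1 : (c.map (Int.castRingHom ℂ)).natDegree = c.natDegree :=
    Polynomial.natDegree_map_eq_of_injective (RingHom.injective_int _) c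
  rw [← h1, hc]
  refine (Polynomial.natDegree_prod_le _ _).trans ?_
  refine (Finset.sum_le_sum (g := fun _ => 1) fun j _ => ?_).trans (by simp)
  refine (Polynomial.natDegree_add_le _ _).trans ?_
  rw [Polynomial.natDegree_one]
  simpa using Polynomial.natDegree_C_mul_X_pow_le (β j) 1

theorem eval_c {r : ℕ} (c : Polynomial ℤ) (β : Fin r → ℂ)
    (hc : c.map (Int.castRingHom ℂ) = ∏ j, (1 + Polynomial.C (β j) * Polynomial.X)) (z : ℂ) :
    ∑ k ∈ range (r + 1), ((c.coeff k : ℤ) : ℂ) * z ^ k = ∏ j, (1 + β j * z) := by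
  have h1 := congrArg (Polynomial.eval z) hc
  rw [Polynomial.eval_prod] at h1
  simp only [Polynomial.eval_add, Polynomial.eval_mul, Polynomial.eval_one, Polynomial.eval_C,
    Polynomial.eval_X] at h1
  rw [← h1, Polynomial.eval_eq_sum_range' (n := r + 1)]
  · refine Finset.sum_congr rfl fun k _ => ?_
    rw [Polynomial.coeff_map, eq_intCast]
  · refine lt_of_le_of_lt (Polynomial.natDegree_map_le) ?_
    have := coeff_high c β hc
    omega

theorem coeff_r {r : ℕ} (c : Polynomial ℤ) (β : Fin r → ℂ)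
    (hc : c.map (Int.castRingHom ℂ) = ∏ j, (1 + Polynomial.C (β j) * Polynomial.X)) :
    ((c.coeff r : ℤ) : ℂ) = ∏ j, β j := by
  have h1 := congrArg (fun p => Polynomial.coeff p r) hc
  simp only [Polynomial.coeff_map, eq_intCast] at h1
  rw [h1]
  have h2 := Polynomial.coeff_prod_of_natDegree_le (s := (univ : Finset (Fin r)))
    (fun j => 1 + Polynomial.C (β j) * Polynomial.X) 1 (fun j _ => by
      refine (Polynomial.natDegree_add_le _ _).trans ?_
      rw [Polynomial.natDegree_one]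
      simpa using Polynomial.natDegree_C_mul_X_pow_le (β j) 1)
  simp only [card_univ, Fintype.card_fin, mul_one] at h2
  rw [h2]
  refine Finset.prod_congr rfl fun j _ => ?_
  simp [Polynomial.coeff_one]

theorem arg_bound' {N r : ℕ} (hr : 1 ≤ r) (hN : 4 * r ≤ N) (c : Polynomial ℤ) (β : Fin r → ℂ)
    (hc : c.map (Int.castRingHom ℂ) = ∏ j, (1 + Polynomial.C (β j) * Polynomial.X))
    (hpos : ∀ (m : ℕ) (lam : Fin m → ℕ), Antitone lam → (∀ i, lam i ≤ r) → ∑ i, lam i ≤ N - r →
      0 < schur c lam) (j : Fin r) :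
    β j ≠ 0 ∧ |Complex.arg (β j)| ≤ 2 * Real.pi * r ^ 2 / N := by
  have hr0 : (0 : ℝ) < r := by exact_mod_cast hr
  have hN0 : (0 : ℝ) < N := by
    have : 0 < N := by omega
    exact_mod_cast this
  have hcr : 0 < c.coeff r := by
    have h1 := hpos 1 (fun _ => r) (fun _ _ _ => le_rfl) (fun _ => le_rfl) (by simp; omega)
    simpa [schur] using h1
  have hprod : ∏ j, β j ≠ 0 := by
    rw [← coeff_r c β hc]
    exact_mod_cast hcr.ne'
  have hβ : ∀ i, β i ≠ 0 := fun i h => hprod (Finset.prod_eq_zero (Finset.mem_univ i) h)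
  refine ⟨hβ j, ?_⟩
  set m := (N - r) / r with hm
  have hm1 : 0 < m := Nat.div_pos (by omega) (by omega)
  have hmr : m * r ≤ N - r := Nat.div_mul_le_self _ _
  have hroot : ∑ k ∈ range (r + 1), ((((c.coeff k : ℤ) : ℝ)) : ℂ) * (-1 / β j) ^ k = 0 := by
    have h1 := eval_c c β hc (-1 / β j)
    rw [Finset.prod_eq_zero (Finset.mem_univ j)] at h1
    · push_cast
      exact h1
    · have := hβ j
      field_simp
      ring
  have hroot' : ∑ k ∈ range (r + 1), ((((c.coeff k : ℤ) : ℝ)) : ℂ) *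
      (-1 / (starRingEnd ℂ) (β j)) ^ k = 0 := by
    have h1 := congrArg (starRingEnd ℂ) hroot
    rw [map_sum, map_zero] at h1
    rw [← h1]
    refine Finset.sum_congr rfl fun k _ => ?_
    simp
  have hck : ∀ k, r < k → ((c.coeff k : ℤ) : ℝ) = 0 := by
    intro k hk
    rw [Polynomial.coeff_eq_zero_of_natDegree_lt (lt_of_le_of_lt (coeff_high c β hc) hk)]
    simp
  have key : ((m : ℝ) + r - 1) * |Complex.arg (β j)| ≤ Real.pi * (r - 1) := by
    rcases le_or_gt 0 (Complex.arg (β j)) with h | h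
    · rw [abs_of_nonneg h]
      exact arg_bound hm1 hr (fun k => ((c.coeff k : ℤ) : ℝ)) hck
        (fun f hf => minor_pos hmr c hpos f hf) (β j) (hβ j) hroot h
    · have h2 : Complex.arg ((starRingEnd ℂ) (β j)) = -Complex.arg (β j) := by
        rw [Complex.arg_conj, if_neg]
        intro h3
        rw [h3] at h
        exact absurd h (not_lt.2 Real.pi_pos.le)
      have h3 := arg_bound hm1 hr (fun k => ((c.coeff k : ℤ) : ℝ)) hck
        (fun f hf => minor_pos hmr c hpos f hf) ((starRingEnd ℂ) (β j))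
        (by simpa using hβ j) hroot' (by rw [h2]; linarith)
      rw [h2] at h3
      rw [abs_of_neg h]
      exact h3
  -- `m ≥ N / r - 2`
  have h4 : (N : ℝ) / r - 2 ≤ m := by
    have h5 : N - r < (m + 1) * r := by
      have := Nat.lt_div_mul_add (a := N - r) (b := r) (by omega)
      rw [hm]
      nlinarith
    have h6 : N < (m + 2) * r := by
      have : (m + 2) * r = (m + 1) * r + r := by ring
      omega
    have h7 : (N : ℝ) < (m + 2) * r := by exact_mod_cast h6
    have h8 : (N : ℝ) / r < m + 2 := by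
      rw [div_lt_iff₀ hr0]
      exact h7
    linarith
  have h9 : (N : ℝ) / (2 * r) ≤ (m : ℝ) + r - 1 := by
    have h10 : (N : ℝ) / r = 2 * ((N : ℝ) / (2 * r)) := by field_simp
    have h11 : (4 : ℝ) * r ≤ N := by exact_mod_cast hN
    have h12 : (2 : ℝ) ≤ (N : ℝ) / (2 * r) := by
      rw [le_div_iff₀ (by positivity)]
      linarith
    have h13 : (1 : ℝ) ≤ r := by exact_mod_cast hr
    linarith
  have h14 : (N : ℝ) / (2 * r) * |Complex.arg (β j)| ≤ Real.pi * r := by
    calc (N : ℝ) / (2 * r) * |Complex.arg (β j)| ≤ ((m : ℝ) + r - 1) * |Complex.arg (β j)| :=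
          mul_le_mul_of_nonneg_right h9 (abs_nonneg _)
      _ ≤ Real.pi * (r - 1) := key
      _ ≤ Real.pi * r := by nlinarith [Real.pi_pos]
  rw [le_div_iff₀ hN0]
  have h15 := mul_le_mul_of_nonneg_right h14 (show (0 : ℝ) ≤ 2 * r by positivity)
  have h16 : (N : ℝ) / (2 * r) * |Complex.arg (β j)| * (2 * r) = |Complex.arg (β j)| * N := by
    field_simp
  rw [h16] at h15
  nlinarith

/-- For `N ≥ 7 r²` the roots have positive real parts and imaginary parts at most `13 r² / N` times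
the real parts. -/
theorem near_real {N r : ℕ} (hr : 1 ≤ r) (hN : 4 * r ≤ N) (hN' : 7 * r ^ 2 ≤ N)
    (c : Polynomial ℤ) (β : Fin r → ℂ)
    (hc : c.map (Int.castRingHom ℂ) = ∏ j, (1 + Polynomial.C (β j) * Polynomial.X))
    (hpos : ∀ (m : ℕ) (lam : Fin m → ℕ), Antitone lam → (∀ i, lam i ≤ r) → ∑ i, lam i ≤ N - r →
      0 < schur c lam) (j : Fin r) :
    0 < (β j).re ∧ |(β j).im| ≤ 13 * r ^ 2 / N * (β j).re ∧ ‖β j‖ ≤ 2 * (β j).re := by
  obtain ⟨hβ, harg⟩ := arg_bound' hr hN c β hc hpos j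
  have hr0 : (0 : ℝ) < r := by exact_mod_cast hr
  have hN0 : (0 : ℝ) < N := by
    have : 0 < N := by omega
    exact_mod_cast this
  have hρ : 0 < ‖β j‖ := norm_pos_iff.2 hβ
  have h1 : |Complex.arg (β j)| ≤ 1 := by
    refine harg.trans ?_
    rw [div_le_one hN0]
    have h2 : (7 : ℝ) * r ^ 2 ≤ N := by exact_mod_cast hN'
    nlinarith [Real.pi_lt_d2, sq_nonneg (r : ℝ), pow_pos hr0 2]
  have h3 : (1 : ℝ) / 2 ≤ Real.cos (Complex.arg (β j)) := by
    have h4 := Real.one_sub_sq_div_two_le_cos (x := Complex.arg (β j))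
    have h5 : Complex.arg (β j) ^ 2 ≤ 1 := by
      rw [← sq_abs]
      nlinarith [abs_nonneg (Complex.arg (β j))]
    linarith
  have hre : (β j).re = ‖β j‖ * Real.cos (Complex.arg (β j)) := (Complex.norm_mul_cos_arg _).symm
  have him : (β j).im = ‖β j‖ * Real.sin (Complex.arg (β j)) := (Complex.norm_mul_sin_arg _).symm
  have h6 : ‖β j‖ ≤ 2 * (β j).re := by
    rw [hre]
    nlinarith
  refine ⟨by linarith, ?_, h6⟩
  have h7 : |Real.sin (Complex.arg (β j))| ≤ |Complex.arg (β j)| := Real.abs_sin_le_abs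
  have h8 : |Real.sin (Complex.arg (β j))| ≤ 2 * Real.pi * r ^ 2 / N := h7.trans harg
  rw [him, abs_mul, abs_of_pos hρ]
  have h9 : 2 * Real.pi * r ^ 2 / N ≤ 6.5 * r ^ 2 / N := by
    apply div_le_div_of_nonneg_right _ hN0.le
    nlinarith [Real.pi_lt_d2, pow_pos hr0 2]
  calc ‖β j‖ * |Real.sin (Complex.arg (β j))| ≤ (2 * (β j).re) * (6.5 * r ^ 2 / N) :=
        mul_le_mul h6 (h8.trans h9) (abs_nonneg _) (by linarith)
    _ = 13 * r ^ 2 / N * (β j).re := by ring

end Pool.Agent.K6.H50.NR
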