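import Pool.Agent.K6.H50.NR
import Pool.Agent.K6.H50.CI

/-!
# The Chern polynomial, power sums, and the spread of the Chern roots
-/

set_option autoImplicit false

namespace Pool.Agent.K6.H50.SP

open Finset Polynomial Pool.Agent.K6.H50.CI Pool.Agent.K6.H50.NR

theorem coeff_prod {r : ℕ} (β : Fin r → ℂ) (s : Finset (Fin r)) :
    (∏ j ∈ s, (1 + C (β j) * X)).coeff 0 = 1 ∧
    (∏ j ∈ s, (1 + C (β j) * X)).coeff 1 = ∑ j ∈ s, β j ∧
    2 * (∏ j ∈ s, (1 + C (β j) * X)).coeff 2 = (∑ j ∈ s, β j) ^ 2 - ∑ j ∈ s, β j ^ 2 := by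
  classical
  induction s using Finset.induction_on with
  | empty => simp [coeff_one]
  | insert a s ha ih =>
    obtain ⟨h0, h1, h2⟩ := ih
    rw [Finset.prod_insert ha, Finset.sum_insert ha, Finset.sum_insert ha]
    set A := ∏ j ∈ s, (1 + C (β j) * X) with hA
    have e0 : ((1 + C (β a) * X) * A).coeff 0 = A.coeff 0 := by
      rw [add_mul, one_mul, mul_assoc, coeff_add, coeff_C_mul, coeff_X_mul_zero]
      ring
    have e1 : ∀ n, ((1 + C (β a) * X) * A).coeff (n + 1) = A.coeff (n + 1) + β a * A.coeff n := by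
      intro n
      rw [add_mul, one_mul, mul_assoc, coeff_add, coeff_C_mul, coeff_X_mul]
    refine ⟨by rw [e0, h0], ?_, ?_⟩
    · rw [e1 0, h0]
      rw [show (0 + 1) = 1 from rfl, h1]
      ring
    · rw [e1 1, show (1 + 1) = 2 from rfl, h1]
      linear_combination h2

variable {r : ℕ} (c : ℤ[X]) (β : Fin r → ℂ)
  (hc : c.map (Int.castRingHom ℂ) = ∏ j, (1 + C (β j) * X))

include hc

theorem c_zero : c.coeff 0 = 1 := by
  have h1 := (coeff_prod β univ).1
  rw [← hc, coeff_map, eq_intCast] at h1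
  exact_mod_cast h1

theorem c_one : ((c.coeff 1 : ℤ) : ℂ) = ∑ j, β j := by
  have h1 := (coeff_prod β univ).2.1
  rw [← hc, coeff_map, eq_intCast] at h1
  exact h1

theorem c_two : 2 * ((c.coeff 2 : ℤ) : ℂ) = ((c.coeff 1 : ℤ) : ℂ) ^ 2 - ∑ j, β j ^ 2 := by
  have h1 := (coeff_prod β univ).2.2
  rw [← hc, coeff_map, eq_intCast] at h1
  rw [h1, c_one c β hc]

theorem sum_re : ∑ j, (β j).re = c.coeff 1 := by
  have h1 := congrArg Complex.re (c_one c β hc)
  rw [Complex.re_sum] at h1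
  rw [← h1]
  simp

theorem sum_sq : ∑ j, ((β j).re ^ 2 - (β j).im ^ 2) = (c.coeff 1 : ℝ) ^ 2 - 2 * c.coeff 2 := by
  have h1 := congrArg Complex.re (c_two c β hc)
  have h2 : (2 * ((c.coeff 2 : ℤ) : ℂ)).re = 2 * c.coeff 2 := by simp
  have h3 : (((c.coeff 1 : ℤ) : ℂ) ^ 2 - ∑ j, β j ^ 2).re =
      (c.coeff 1 : ℝ) ^ 2 - ∑ j, ((β j).re ^ 2 - (β j).im ^ 2) := by
    rw [Complex.sub_re, Complex.re_sum]
    congr 1
    · have : ((c.coeff 1 : ℤ) : ℂ) ^ 2 = (((c.coeff 1 : ℤ) : ℝ) ^ 2 : ℝ) := by push_cast; rfl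
      rw [this, Complex.ofReal_re]
    · refine Finset.sum_congr rfl fun j _ => ?_
      rw [sq (β j), Complex.mul_re]
      ring
  rw [h2, h3] at h1
  linarith

/-- The spread of the real parts. -/
theorem spread (hr : 1 ≤ r) (i j : Fin r) :
    ((β i).re - (β j).re) ^ 2 ≤
      2 / r * (((r : ℝ) - 1) * (c.coeff 1 : ℝ) ^ 2 - 2 * r * c.coeff 2) + 2 * ∑ j, (β j).im ^ 2 := by
  have hr0 : (0 : ℝ) < r := by exact_mod_cast hr
  set x : Fin r → ℝ := fun j => (β j).re with hx
  set m : ℝ := (∑ j, x j) / r with hm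
  have h1 : ∑ j, (x j - m) ^ 2 = ∑ j, x j ^ 2 - (∑ j, x j) ^ 2 / r := by
    have h2 : ∀ j, (x j - m) ^ 2 = x j ^ 2 - 2 * m * x j + m ^ 2 := fun j => by ring
    simp only [h2]
    rw [Finset.sum_add_distrib, Finset.sum_sub_distrib, ← Finset.mul_sum, Finset.sum_const,
      Finset.card_univ, Fintype.card_fin, nsmul_eq_mul, hm]
    field_simp
    ring
  have h3 := sum_re c β hc
  have h4 := sum_sq c β hc
  rw [Finset.sum_sub_distrib] at h4
  have h5 : 2 / r * (((r : ℝ) - 1) * (c.coeff 1 : ℝ) ^ 2 - 2 * r * c.coeff 2) +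
      2 * ∑ j, (β j).im ^ 2 = 2 * ∑ j, (x j - m) ^ 2 := by
    rw [h1]
    have h6 : ∑ j, x j = c.coeff 1 := h3
    have h7 : ∑ j, x j ^ 2 = (c.coeff 1 : ℝ) ^ 2 - 2 * c.coeff 2 + ∑ j, (β j).im ^ 2 := by
      linarith
    rw [h6, h7]
    field_simp
    ring
  rw [h5]
  by_cases hij : i = j
  · rw [hij]
    simp only [sub_self]
    have : 0 ≤ ∑ j, (x j - m) ^ 2 := Finset.sum_nonneg fun _ _ => sq_nonneg _
    nlinarith
  · have h6 : (x i - m) ^ 2 + (x j - m) ^ 2 ≤ ∑ j, (x j - m) ^ 2 := by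
      have h7 : ∑ l ∈ ({i, j} : Finset (Fin r)), (x l - m) ^ 2 ≤ ∑ j, (x j - m) ^ 2 :=
        Finset.sum_le_sum_of_subset_of_nonneg (Finset.subset_univ _) fun _ _ _ => sq_nonneg _
      rw [Finset.sum_pair hij] at h7
      exact h7
    have h8 : ((β i).re - (β j).re) ^ 2 ≤ 2 * ((x i - m) ^ 2 + (x j - m) ^ 2) := by
      have : (β i).re - (β j).re = (x i - m) - (x j - m) := by simp only [hx]; ring
      rw [this]
      nlinarith [sq_nonneg ((x i - m) + (x j - m))]
    linarith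

/-- The polynomial `Π (T - β_j)`. -/
theorem exists_P (hβ : ∀ j, β j ≠ 0) : ∃ P : ℤ[X], P.Monic ∧ (∀ j, aeval (β j) P = 0) ∧
    (∀ x : ℂ, aeval x P = 0 → ∃ j, β j = x) := by
  classical
  set P : ℤ[X] := ∑ k ∈ range (r + 1), C ((-1) ^ k * c.coeff k) * X ^ (r - k) with hP
  have heval : ∀ x : ℂ, x ≠ 0 → aeval x P = ∏ j, (x - β j) := by
    intro x hx
    have h1 := eval_c c β hc (-1 / x)
    have h2 : ∏ j, (x - β j) = x ^ r * ∏ j, (1 + β j * (-1 / x)) := by
      have h3 : x ^ r = ∏ _j : Fin r, x := by simp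
      rw [h3, ← Finset.prod_mul_distrib]
      refine Finset.prod_congr rfl fun j _ => ?_
      field_simp
      ring
    rw [h2, ← h1, hP, map_sum, Finset.mul_sum]
    refine Finset.sum_congr rfl fun k hk => ?_
    have hk' : k ≤ r := by have := Finset.mem_range.1 hk; omega
    rw [map_mul, map_pow, aeval_X, aeval_C]
    have h4 : x ^ r = x ^ (r - k) * x ^ k := by rw [← pow_add]; congr 1; omega
    rw [h4, div_pow]
    have h5 : x ^ k ≠ 0 := pow_ne_zero _ hx
    simp only [algebraMap_int_eq, eq_intCast]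
    push_cast
    field_simp
  have hcoeff : ∀ n, P.coeff n = ∑ k ∈ range (r + 1), if n = r - k then (-1) ^ k * c.coeff k else 0 := by
    intro n
    rw [hP, finset_sum_coeff]
    refine Finset.sum_congr rfl fun k _ => ?_
    rw [coeff_C_mul_X_pow]
  have hmonic : P.Monic := by
    apply monic_of_natDegree_le_of_coeff_eq_one r
    · rw [hP]
      refine natDegree_sum_le_of_forall_le _ _ fun k _ => ?_
      exact (natDegree_C_mul_X_pow_le _ _).trans (by omega)
    · rw [hcoeff r, Finset.sum_eq_single 0]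
      · simp [c_zero c β hc]
      · intro k hk hk0
        rw [if_neg]
        have := Finset.mem_range.1 hk
        omega
      · intro h
        exact absurd (Finset.mem_range.2 (by omega)) h
  refine ⟨P, hmonic, fun j => ?_, fun x hx => ?_⟩
  · rw [heval _ (hβ j)]
    exact Finset.prod_eq_zero (Finset.mem_univ j) (sub_self _)
  · have hx0 : x ≠ 0 := by
      intro h
      rw [h] at hx
      have h1 : aeval (0 : ℂ) P = ((P.coeff 0 : ℤ) : ℂ) := by
        rw [aeval_def, eval₂_at_zero]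
        rfl
      have h2 : P.coeff 0 = (-1) ^ r * c.coeff r := by
        rw [hcoeff 0, Finset.sum_eq_single r]
        · simp
        · intro k hk hkr
          rw [if_neg]
          have := Finset.mem_range.1 hk
          omega
        · intro h
          exact absurd (Finset.mem_range.2 (by omega)) h
      rw [h1, h2] at hx
      push_cast at hx
      rcases mul_eq_zero.1 hx with h3 | h3
      · exact absurd h3 (pow_ne_zero _ (by norm_num))
      · rw [coeff_r c β hc, Finset.prod_eq_zero_iff] at h3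
        obtain ⟨j, _, hj⟩ := h3
        exact hβ j hj
    rw [heval x hx0, Finset.prod_eq_zero_iff] at hx
    obtain ⟨j, _, hj⟩ := hx
    exact ⟨j, (sub_eq_zero.1 hj).symm⟩

end Pool.Agent.K6.H50.SP
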